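import Mathlib

set_option autoImplicit false

/-!
# Asymptotics of the parameters
-/

namespace Pool.Agent.Y592.DS

open Filter

theorem ev_log (δ : ℝ) (hδ : 0 < δ) :
    ∀ᶠ N : ℕ in atTop, ((Nat.log 2 N + 1 : ℕ) : ℝ) ≤ (N : ℝ) ^ δ := by
  have h1 : ∀ᶠ x : ℝ in atTop, ‖Real.log x‖ ≤ (Real.log 2 / 2) * ‖x ^ δ‖ :=
    (isLittleO_log_rpow_atTop hδ).def (by positivity)
  have h2 : ∀ᶠ x : ℝ in atTop, (2 : ℝ) ≤ x ^ δ :=
    (tendsto_rpow_atTop hδ).eventually (eventually_ge_atTop 2)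
  have h3 : ∀ᶠ N : ℕ in atTop, ‖Real.log (N : ℝ)‖ ≤ (Real.log 2 / 2) * ‖(N : ℝ) ^ δ‖ :=
    tendsto_natCast_atTop_atTop.eventually h1
  have h4 : ∀ᶠ N : ℕ in atTop, (2 : ℝ) ≤ (N : ℝ) ^ δ :=
    tendsto_natCast_atTop_atTop.eventually h2
  filter_upwards [h3, h4, eventually_ge_atTop 1] with N h3 h4 h5
  have hN : (1 : ℝ) ≤ N := by exact_mod_cast h5
  have hl2 : 0 < Real.log 2 := Real.log_pos (by norm_num)
  rw [Real.norm_of_nonneg (Real.log_nonneg hN), Real.norm_of_nonneg (by positivity)] at h3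
  have h6 : ((Nat.log 2 N : ℕ) : ℝ) * Real.log 2 ≤ Real.log N := by
    rw [← Real.log_pow]
    refine Real.log_le_log (by positivity) ?_
    exact_mod_cast Nat.pow_log_le_self 2 (by omega)
  have h7 : ((Nat.log 2 N : ℕ) : ℝ) ≤ (N : ℝ) ^ δ / 2 := by
    by_contra hcon
    push Not at hcon
    nlinarith
  push_cast
  linarith

theorem ev_const (δ C : ℝ) (hδ : 0 < δ) : ∀ᶠ N : ℕ in atTop, C ≤ (N : ℝ) ^ δ :=
  tendsto_natCast_atTop_atTop.eventually
    ((tendsto_rpow_atTop hδ).eventually (eventually_ge_atTop C))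

/-- choice of `K`, `w` and `d` -/
theorem params (ε : ℝ) (hε : 0 < ε) (hε1 : ε ≤ 1) (c m : ℕ) (hc : 1 ≤ c) (hm : 8 / ε ≤ m) :
    ∀ᶠ N : ℕ in atTop, ∃ K w d : ℕ, K * (2 * (c * (Nat.log 2 N + 1))) ≤ N ∧
      32 * N ≤ w ^ m ∧ w * d ≤ K ∧ 2 ≤ d ∧ 7 * (N : ℝ) ^ (1 - ε / 2) ≤ d := by
  have hm0 : (0 : ℝ) < m := lt_of_lt_of_le (by positivity) hm
  have hm1 : m ≠ 0 := by
    rintro rfl
    simp at hm0
  filter_upwards [ev_log (ε / 8) (by positivity), ev_const (ε / 4) (4096 * c) (by positivity),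
    eventually_ge_atTop 2] with N h1 h2 h3
  have hN2 : (2 : ℝ) ≤ N := by exact_mod_cast h3
  have hN0 : (0 : ℝ) < N := by linarith
  have hcR : (1 : ℝ) ≤ c := by exact_mod_cast hc
  obtain ⟨Lg, hLg⟩ : ∃ Lg : ℕ, Lg = Nat.log 2 N + 1 := ⟨_, rfl⟩
  rw [← hLg] at h1 ⊢
  have hLg1 : 1 ≤ Lg := by omega
  have hLgR : (1 : ℝ) ≤ Lg := by exact_mod_cast hLg1
  obtain ⟨K, hK⟩ : ∃ K : ℕ, K = N / (2 * (c * Lg)) := ⟨_, rfl⟩
  obtain ⟨w, hw⟩ : ∃ w : ℕ, w = ⌈(32 * (N : ℝ)) ^ ((1 : ℝ) / m)⌉₊ := ⟨_, rfl⟩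
  -- w
  have hw1 : (32 * (N : ℝ)) ^ ((1 : ℝ) / m) ≤ w := by rw [hw]; exact Nat.le_ceil _
  have hwpos : (1 : ℝ) ≤ (32 * (N : ℝ)) ^ ((1 : ℝ) / m) :=
    Real.one_le_rpow (by linarith) (by positivity)
  have hw2 : (w : ℝ) ≤ 2 * (32 * (N : ℝ)) ^ ((1 : ℝ) / m) := by
    have := (Nat.ceil_lt_add_one (a := (32 * (N : ℝ)) ^ ((1 : ℝ) / m)) (by positivity)).le
    rw [← hw] at this
    linarith
  have hmε : (1 : ℝ) / m ≤ ε / 8 := by
    rw [div_le_iff₀ hm0]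
    rw [div_le_iff₀ hε] at hm
    linarith
  have hw3 : (w : ℝ) ≤ 64 * (N : ℝ) ^ (ε / 8) := by
    have e1 : (32 * (N : ℝ)) ^ ((1 : ℝ) / m) = (32 : ℝ) ^ ((1 : ℝ) / m) * (N : ℝ) ^ ((1 : ℝ) / m) :=
      Real.mul_rpow (by norm_num) hN0.le
    have e2 : (32 : ℝ) ^ ((1 : ℝ) / m) ≤ 32 := by
      have : (1 : ℝ) / m ≤ 1 := hmε.trans (by linarith)
      calc (32 : ℝ) ^ ((1 : ℝ) / m) ≤ 32 ^ (1 : ℝ) :=
            Real.rpow_le_rpow_of_exponent_le (by norm_num) this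
        _ = 32 := Real.rpow_one _
    have e3 : (N : ℝ) ^ ((1 : ℝ) / m) ≤ (N : ℝ) ^ (ε / 8) :=
      Real.rpow_le_rpow_of_exponent_le (by linarith) hmε
    have e4 : (32 : ℝ) ^ ((1 : ℝ) / m) * (N : ℝ) ^ ((1 : ℝ) / m) ≤ 32 * (N : ℝ) ^ (ε / 8) :=
      mul_le_mul e2 e3 (by positivity) (by norm_num)
    rw [e1] at hw2
    linarith
  have hwm : 32 * N ≤ w ^ m := by
    have e1 : ((32 * (N : ℝ)) ^ ((1 : ℝ) / m)) ^ m = 32 * N := by
      rw [← Real.rpow_natCast, ← Real.rpow_mul (by positivity), one_div,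
        inv_mul_cancel₀ hm0.ne', Real.rpow_one]
    have e2 : (32 * (N : ℝ)) ≤ (w : ℝ) ^ m := by
      rw [← e1]
      exact pow_le_pow_left₀ (by positivity) hw1 m
    exact_mod_cast e2
  have hw0 : 0 < w := by
    rw [hw]
    exact Nat.ceil_pos.2 (by linarith)
  have hwR : (0 : ℝ) < w := by exact_mod_cast hw0
  -- K
  have hKle : K * (2 * (c * Lg)) ≤ N := by rw [hK]; exact Nat.div_mul_le_self _ _
  have hcL : (0 : ℝ) < 2 * (c * Lg) := by positivity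
  have hK1 : (N : ℝ) / (2 * (c * Lg)) - 1 ≤ K := by
    have e1 : N < (K + 1) * (2 * (c * Lg)) := by
      rw [hK, add_mul, one_mul]
      exact Nat.lt_div_mul_add (by positivity)
    have e2 : (N : ℝ) < (K + 1) * (2 * (c * Lg)) := by exact_mod_cast e1
    rw [sub_le_iff_le_add, div_le_iff₀ hcL]
    exact e2.le
  obtain ⟨X, hX⟩ : ∃ X : ℝ, X = (N : ℝ) ^ (ε / 8) := ⟨_, rfl⟩
  have hX1 : 1 ≤ X := by rw [hX]; exact Real.one_le_rpow (by linarith) (by positivity)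
  have hX2 : (N : ℝ) ^ (ε / 4) = X * X := by
    rw [hX, ← Real.rpow_add hN0]
    congr 1
    ring
  rw [← hX] at h1 hw3
  rw [hX2] at h2
  obtain ⟨Y, hY⟩ : ∃ Y : ℝ, Y = (N : ℝ) ^ (1 - ε / 2) := ⟨_, rfl⟩
  have hY1 : 1 ≤ Y := by rw [hY]; exact Real.one_le_rpow (by linarith) (by linarith)
  have hNXY : (N : ℝ) = Y * (X * X * (X * X)) := by
    rw [← hX2, hY, ← Real.rpow_add hN0, ← Real.rpow_add hN0]
    have : 1 - ε / 2 + (ε / 4 + ε / 4) = 1 := by ring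
    rw [this, Real.rpow_one]
  have hX0 : 0 < X := by linarith
  have hY0 : 0 < Y := by linarith
  -- K ≥ Y X X X / (4 c)
  have hK2 : Y * (X * X * X) / (4 * c) ≤ K := by
    have e1 : Y * (X * X * X) / (2 * c) ≤ (N : ℝ) / (2 * (c * Lg)) := by
      rw [div_le_div_iff₀ (by positivity) hcL, hNXY]
      have : Y * (X * X * X) * (2 * (c * Lg)) = Y * (X * X * X) * (2 * c) * Lg := by ring
      rw [this]
      have e2 : Y * (X * X * (X * X)) * (2 * c) = Y * (X * X * X) * (2 * c) * X := by ring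
      rw [e2]
      exact mul_le_mul_of_nonneg_left h1 (by positivity)
    have e3 : 1 ≤ Y * (X * X * X) / (4 * c) := by
      rw [le_div_iff₀ (by positivity)]
      have e4 : 4 * (c : ℝ) ≤ X * X := by linarith
      have e5 : X * X ≤ Y * (X * X * X) := by
        have : Y * (X * X * X) = X * X * (Y * X) := by ring
        rw [this]
        have e6 : 1 ≤ Y * X := by nlinarith
        nlinarith [mul_pos hX0 hX0]
      linarith
    have e4 : Y * (X * X * X) / (2 * c) = 2 * (Y * (X * X * X) / (4 * c)) := by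
      field_simp
      norm_num
    linarith
  refine ⟨K, w, K / w, hKle, hwm, Nat.mul_div_le K w, ?_, ?_⟩
  all_goals
    have e1 : (K : ℝ) < (K / w + 1 : ℕ) * w := by
      have : K < (K / w + 1) * w := by
        rw [add_mul, one_mul]
        exact Nat.lt_div_mul_add hw0
      exact_mod_cast this
    have e2 : 8 * Y * w ≤ K := by
      refine le_trans ?_ hK2
      rw [le_div_iff₀ (by positivity)]
      calc 8 * Y * w * (4 * c) ≤ 8 * Y * (64 * X) * (4 * c) := by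
            refine mul_le_mul_of_nonneg_right ?_ (by positivity)
            exact mul_le_mul_of_nonneg_left hw3 (by positivity)
        _ = 2048 * c * (Y * X) := by ring
        _ ≤ (X * X) * (Y * X) := by
            refine mul_le_mul_of_nonneg_right ?_ (by positivity)
            linarith
        _ = Y * (X * X * X) := by ring
    have e3 : 8 * Y < ((K / w + 1 : ℕ) : ℝ) := by
      by_contra hcon
      push Not at hcon
      have : ((K / w + 1 : ℕ) : ℝ) * w ≤ 8 * Y * w := mul_le_mul_of_nonneg_right hcon hwR.le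
      linarith
    push_cast at e3
  · have : (2 : ℝ) ≤ ((K / w : ℕ) : ℝ) := by linarith
    exact_mod_cast this
  · rw [← hY]
    linarith

end Pool.Agent.Y592.DS
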