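import Mathlib

set_option autoImplicit false
set_option linter.unusedSectionVars false

/-!
# Spread sets of assignments and partitions into spread sets
-/

namespace Pool.Agent.Y592.DS

open Finset

variable {κ U : Type} [Fintype κ] [DecidableEq κ] [Fintype U] [DecidableEq U]

/-- no value of a block outside `I` is taken by more than the fraction `1 / Q` of `P` -/
def Spread (Q : ℕ) (P : Finset (κ → U)) (I : Finset κ) : Prop :=
  ∀ i ∉ I, ∀ v, (P.filter (fun z => z i = v)).card * Q ≤ P.card

/-- the blocks in `I` are constant on `P` -/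
def Cst (P : Finset (κ → U)) (I : Finset κ) : Prop := ∀ i ∈ I, ∀ z ∈ P, ∀ z' ∈ P, z i = z' i

omit [Fintype κ] [DecidableEq κ] [Fintype U] [DecidableEq U] in
theorem Cst.mono {P P' : Finset (κ → U)} {I : Finset κ} (h : Cst P I) (h' : P' ⊆ P) : Cst P' I :=
  fun i hi z hz z' hz' => h i hi z (h' hz) z' (h' hz')

/-- a set which is constant on `I` is small -/
theorem Cst.card_le {P : Finset (κ → U)} {I : Finset κ} (h : Cst P I) :
    P.card * (Fintype.card U) ^ I.card ≤ (Fintype.card U) ^ (Fintype.card κ) := by
  classical
  rcases P.eq_empty_or_nonempty with rfl | ⟨z0, hz0⟩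
  · simp
  · have h1 : P.card ≤ (Fintype.card U) ^ (Iᶜ.card) := by
      have h2 : P.card ≤ (Finset.univ : Finset ({i // i ∈ Iᶜ} → U)).card := by
        refine Finset.card_le_card_of_injOn (fun z i => z i.1) (fun _ _ => mem_coe.2 (mem_univ _)) ?_
        intro z hz z' hz' he
        funext i
        by_cases hi : i ∈ I
        · exact h i hi z hz z' hz'
        · exact congrFun he ⟨i, mem_compl.2 hi⟩
      rw [card_univ, Fintype.card_fun, Fintype.card_coe] at h2
      exact h2
    have h3 : Iᶜ.card + I.card = Fintype.card κ := by
      rw [card_compl]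
      have := card_le_univ I
      omega
    calc P.card * (Fintype.card U) ^ I.card
        ≤ (Fintype.card U) ^ (Iᶜ.card) * (Fintype.card U) ^ I.card := Nat.mul_le_mul_right _ h1
      _ = (Fintype.card U) ^ (Fintype.card κ) := by rw [← pow_add, h3]

/-- every nonempty set has a dense spread subset -/
theorem exists_spread (Q : ℕ) : ∀ (n : ℕ) (P : Finset (κ → U)) (I : Finset κ),
    Fintype.card κ - I.card = n → P.Nonempty → Cst P I →
    ∃ (P' : Finset (κ → U)) (I' : Finset κ), P' ⊆ P ∧ I ⊆ I' ∧ P'.Nonempty ∧ Cst P' I' ∧
      Spread Q P' I' ∧ P.card * Q ^ I.card ≤ P'.card * Q ^ I'.card := by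
  intro n
  induction n using Nat.strong_induction_on with
  | _ n ih =>
    intro P I hn hP hc
    by_cases hs : Spread Q P I
    · exact ⟨P, I, subset_rfl, subset_rfl, hP, hc, hs, le_rfl⟩
    · unfold Spread at hs
      push Not at hs
      obtain ⟨i, hi, v, hv⟩ := hs
      set P1 := P.filter (fun z => z i = v) with hP1
      have hP1n : P1.Nonempty := by
        rw [nonempty_iff_ne_empty]
        intro h0
        rw [h0] at hv
        simp at hv
      have hc1 : Cst P1 (insert i I) := by
        intro j hj z hz z' hz'
        rw [hP1, mem_filter] at hz hz'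
        rcases mem_insert.1 hj with rfl | hj
        · rw [hz.2, hz'.2]
        · exact hc j hj z hz.1 z' hz'.1
      have hlt : I.card < Fintype.card κ := by
        have h1 : (insert i I).card ≤ Fintype.card κ := card_le_univ _
        rw [card_insert_of_notMem hi] at h1
        omega
      obtain ⟨P', I', h1, h2, h3, h4, h5, h6⟩ := ih (Fintype.card κ - (insert i I).card)
        (by rw [card_insert_of_notMem hi]; omega) P1 (insert i I) rfl hP1n hc1
      refine ⟨P', I', h1.trans (filter_subset _ _), (subset_insert _ _).trans h2, h3, h4, h5, ?_⟩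
      refine le_trans ?_ h6
      rw [card_insert_of_notMem hi, pow_succ]
      have h7 : P.card ≤ P1.card * Q := hv.le
      calc P.card * Q ^ I.card ≤ (P1.card * Q) * Q ^ I.card := Nat.mul_le_mul_right _ h7
        _ = P1.card * (Q ^ I.card * Q) := by ring

/-- A state: a set of assignments and the blocks that are fixed on it. -/
abbrev St (κ U : Type) : Type := Finset (κ → U) × Finset κ

/-- A partition of a set `R`, on which the blocks in `I` are constant, into spread sets which
are not much less dense than `T`, up to less than `T` elements. -/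
structure IsParts (Q : ℕ) (R : Finset (κ → U)) (I : Finset κ) (T : ℕ) (Ps : Finset (St κ U)) :
    Prop where
  sub : ∀ x ∈ Ps, x.1 ⊆ R
  subI : ∀ x ∈ Ps, I ⊆ x.2
  nonempty : ∀ x ∈ Ps, x.1.Nonempty
  cst : ∀ x ∈ Ps, Cst x.1 x.2
  spread : ∀ x ∈ Ps, Spread Q x.1 x.2
  dense : ∀ x ∈ Ps, T * Q ^ I.card ≤ x.1.card * Q ^ x.2.card
  disj : (Ps : Set (St κ U)).PairwiseDisjoint Prod.fst
  rest : R.card < ∑ x ∈ Ps, x.1.card + T
  card_le : Ps.card ≤ R.card

theorem exists_parts (Q : ℕ) (I : Finset κ) (T : ℕ) (hT : 1 ≤ T) : ∀ (n : ℕ)
    (R : Finset (κ → U)), R.card = n → Cst R I → ∃ Ps, IsParts Q R I T Ps := by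
  classical
  intro n
  induction n using Nat.strong_induction_on with
  | _ n ih =>
    intro R hn hc
    by_cases hRT : R.card < T
    · refine ⟨∅, ⟨by simp, by simp, by simp, by simp, by simp, by simp, by simp, ?_, by simp⟩⟩
      simpa using hRT
    · push Not at hRT
      have hR : R.Nonempty := by rw [← card_pos]; omega
      obtain ⟨P', I', h1, h2, h3, h4, h5, h6⟩ := exists_spread Q _ R I rfl hR hc
      have hPpos : 0 < P'.card := card_pos.2 h3
      have hcard : (R \ P').card = R.card - P'.card := card_sdiff_of_subset h1
      have hle : P'.card ≤ R.card := card_le_card h1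
      obtain ⟨Ps, hPs⟩ := ih (R \ P').card (by omega) (R \ P') rfl (hc.mono sdiff_subset)
      have hnot : (P', I') ∉ Ps := by
        intro hmem
        obtain ⟨z, hz⟩ := h3
        have := hPs.sub _ hmem hz
        exact (mem_sdiff.1 this).2 hz
      refine ⟨insert (P', I') Ps, ?_, ?_, ?_, ?_, ?_, ?_, ?_, ?_, ?_⟩
      · intro x hx
        rcases mem_insert.1 hx with rfl | hx
        · exact h1
        · exact (hPs.sub x hx).trans sdiff_subset
      · intro x hx
        rcases mem_insert.1 hx with rfl | hx
        · exact h2
        · exact hPs.subI x hx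
      · intro x hx
        rcases mem_insert.1 hx with rfl | hx
        · exact h3
        · exact hPs.nonempty x hx
      · intro x hx
        rcases mem_insert.1 hx with rfl | hx
        · exact h4
        · exact hPs.cst x hx
      · intro x hx
        rcases mem_insert.1 hx with rfl | hx
        · exact h5
        · exact hPs.spread x hx
      · intro x hx
        rcases mem_insert.1 hx with rfl | hx
        · exact (Nat.mul_le_mul_right _ hRT).trans h6
        · exact hPs.dense x hx
      · rw [coe_insert, Set.pairwiseDisjoint_insert]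
        refine ⟨hPs.disj, fun x hx _ => ?_⟩
        show Disjoint P' x.1
        rw [disjoint_left]
        intro z hz hz'
        exact (mem_sdiff.1 (hPs.sub x hx hz')).2 hz
      · rw [sum_insert hnot]
        have := hPs.rest
        rw [hcard] at this
        show R.card < P'.card + ∑ x ∈ Ps, x.1.card + T
        omega
      · rw [card_insert_of_notMem hnot]
        have := hPs.card_le
        omega

open Classical in
/-- a canonical choice of such a partition -/
noncomputable def parts (Q : ℕ) (R : Finset (κ → U)) (I : Finset κ) (T : ℕ) : Finset (St κ U) :=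
  if h : ∃ Ps, IsParts Q R I T Ps then h.choose else ∅

theorem parts_spec (Q : ℕ) {R : Finset (κ → U)} {I : Finset κ} (hc : Cst R I) {T : ℕ}
    (hT : 1 ≤ T) : IsParts Q R I T (parts Q R I T) := by
  have h := exists_parts Q I T hT _ R rfl hc
  unfold parts
  rw [dif_pos h]
  exact h.choose_spec

theorem parts_card_le (Q : ℕ) (R : Finset (κ → U)) (I : Finset κ) (T : ℕ) :
    (parts Q R I T).card ≤ (Fintype.card U) ^ (Fintype.card κ) := by
  unfold parts
  split
  · rename_i h
    refine h.choose_spec.card_le.trans ?_
    refine (card_le_univ R).trans ?_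
    rw [Fintype.card_fun]
  · simp

end Pool.Agent.Y592.DS
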