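import Mathlib
import Pool.Agent.Y592.DS.Basic

set_option autoImplicit false
set_option linter.unusedSectionVars false

/-!
# The mass of the parts on which a constraint is violated
-/

namespace Pool.Agent.Y592.DS

open Finset

variable {κ U : Type} [Fintype κ] [DecidableEq κ] [Fintype U] [DecidableEq U] {m : ℕ}

/-- the value of the tuple `C` of blocks -/
abbrev at' (C : Fin m → κ) (z : κ → U) : Fin m → U := fun j => z (C j)

/-- no constraint inside the blocks `x.2` is violated on `x.1` -/
def Good (bad : (Fin m → κ) → (Fin m → U) → Bool) (x : St κ U) : Prop :=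
  ∀ C : Fin m → κ, (∀ j, C j ∈ x.2) → ∀ z ∈ x.1, bad C (at' C z) = false

/-- union of the parts which fix the blocks in `J` -/
def uni (Ps : Finset (St κ U)) (J : Finset κ) : Finset (κ → U) :=
  (Ps.filter (fun x => J ⊆ x.2)).biUnion Prod.fst

/-- The constraint is violated on about the right fraction of `V`, a subset of `P`, for all tuples
that take no value on a large part of `P`. -/
def Pseudo (bad : (Fin m → κ) → (Fin m → U) → Bool) (Q : ℕ) (p x : ℝ)
    (P V : Finset (κ → U)) : Prop :=
  ∀ C : Fin m → κ, (∀ u, (P.filter (fun z => at' C z = u)).card * Q ≤ P.card) →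
    ((V.filter (fun z => bad C (at' C z) = true)).card : ℝ) ≤ 2 * p * V.card + x * P.card

theorem sum_card_inter_le {ι Z : Type} [DecidableEq ι] [DecidableEq Z] (s : Finset ι)
    (X : ι → Finset Z) (hX : (s : Set ι).PairwiseDisjoint X) (P D : Finset Z)
    (h : ∀ i ∈ s, X i ⊆ P) : ∑ i ∈ s, (X i ∩ D).card ≤ (P ∩ D).card := by
  rw [← card_biUnion]
  · refine card_le_card ?_
    intro z hz
    obtain ⟨i, hi, hz⟩ := mem_biUnion.1 hz
    rw [mem_inter] at hz ⊢
    exact ⟨h i hi hz.1, hz.2⟩
  · intro i hi j hj hij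
    exact disjoint_of_subset_left inter_subset_left
      (disjoint_of_subset_right inter_subset_left (hX hi hj hij))

/-- the tuples inside a set of blocks -/
abbrev tup (m : ℕ) (J : Finset κ) : Finset (Fin m → κ) := Fintype.piFinset fun _ : Fin m => J

theorem mem_tup {J : Finset κ} {C : Fin m → κ} : C ∈ tup m J ↔ ∀ j, C j ∈ J := by
  simp [tup]

theorem card_tup (J : Finset κ) : (tup m J).card = J.card ^ m := by
  simp [tup, Fintype.card_piFinset]

theorem image_subset_iff' {J : Finset κ} {C : Fin m → κ} : univ.image C ⊆ J ↔ ∀ j, C j ∈ J := by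
  rw [image_subset_iff]
  simp

/-- Sum over the tuples of the size of the unions. -/
theorem sum_uni (Ps : Finset (St κ U)) (hd : (Ps : Set (St κ U)).PairwiseDisjoint Prod.fst)
    (P : Finset (κ → U)) (t : Finset (Fin m → κ)) (f : (Fin m → κ) → (κ → U) → Prop)
    [∀ C z, Decidable (f C z)] :
    ∑ C ∈ t, ((P ∩ uni Ps (univ.image C)).filter (f C)).card =
      ∑ x ∈ Ps, ∑ C ∈ t.filter (fun C => ∀ j, C j ∈ x.2), ((P ∩ x.1).filter (f C)).card := by
  have h1 : ∀ C ∈ t, ((P ∩ uni Ps (univ.image C)).filter (f C)).card =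
      ∑ x ∈ Ps.filter (fun x => ∀ j, C j ∈ x.2), ((P ∩ x.1).filter (f C)).card := by
    intro C _
    rw [← card_biUnion]
    · congr 1
      ext z
      simp only [uni, mem_filter, mem_inter, mem_biUnion, image_subset_iff']
      constructor
      · rintro ⟨⟨h1, x, h2, h3⟩, h4⟩
        exact ⟨x, h2, ⟨h1, h3⟩, h4⟩
      · rintro ⟨x, h2, ⟨h1, h3⟩, h4⟩
        exact ⟨⟨h1, x, h2, h3⟩, h4⟩
    · intro x hx y hy hxy
      have := hd (mem_coe.2 (mem_filter.1 hx).1) (mem_coe.2 (mem_filter.1 hy).1) hxy
      exact disjoint_of_subset_left ((filter_subset _ _).trans inter_subset_right)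
        (disjoint_of_subset_right ((filter_subset _ _).trans inter_subset_right) this)
  rw [sum_congr rfl h1]
  simp only [sum_filter]
  rw [sum_comm]

theorem badmass {bad : (Fin m → κ) → (Fin m → U) → Bool} {Q : ℕ} {p x0 : ℝ} (hp : 0 ≤ p)
    (hx0 : 0 ≤ x0) {P : Finset (κ → U)} {I : Finset κ} (hs : Spread Q P I)
    (hg : Good bad (P, I)) {Ps : Finset (St κ U)}
    (hd : (Ps : Set (St κ U)).PairwiseDisjoint Prod.fst) (hc : ∀ x ∈ Ps, Cst x.1 x.2)
    (hps : ∀ J, Pseudo bad Q p x0 P (P ∩ uni Ps J)) (bd : St κ U → Prop) [DecidablePred bd]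
    (hbd : ∀ x ∈ Ps, bd x → ¬ Good bad x) :
    ∑ x ∈ Ps.filter bd, ((P ∩ x.1).card : ℝ) ≤
      2 * p * ∑ x ∈ Ps, ((P ∩ x.1).card : ℝ) * ((tup m x.2 \ tup m I).card : ℝ) +
        (Fintype.card κ : ℝ) ^ m * x0 * P.card := by
  classical
  set t : Finset (Fin m → κ) := univ \ tup m I with ht
  -- each bad part is covered by a violated constraint
  have h1 : ∑ x ∈ Ps.filter bd, (P ∩ x.1).card ≤
      ∑ x ∈ Ps, ∑ C ∈ t.filter (fun C => ∀ j, C j ∈ x.2),
        ((P ∩ x.1).filter (fun z => bad C (at' C z) = true)).card := by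
    rw [sum_filter]
    refine sum_le_sum fun x hx => ?_
    split
    · rename_i hb
      rcases (P ∩ x.1).eq_empty_or_nonempty with he | ⟨z', hz'⟩
      · rw [he]; simp
      · have := hbd x hx hb
        unfold Good at this
        push Not at this
        obtain ⟨C, hC, z, hz, hbz⟩ := this
        rw [ne_eq, Bool.not_eq_false] at hbz
        have hall : ∀ w ∈ x.1, bad C (at' C w) = true := by
          intro w hw
          have : at' C w = at' C z := by
            funext j
            exact hc x hx (C j) (hC j) w hw z hz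
          rw [this]; exact hbz
        rw [mem_inter] at hz'
        have hCt : C ∈ t := by
          rw [ht, mem_sdiff, mem_tup]
          refine ⟨mem_univ _, fun hCI => ?_⟩
          have h2 := hg C hCI z' hz'.1
          rw [hall z' hz'.2] at h2
          exact absurd h2 (by simp)
        have h3 : (P ∩ x.1).card = ((P ∩ x.1).filter (fun z => bad C (at' C z) = true)).card := by
          rw [filter_true_of_mem]
          intro w hw
          exact hall w (mem_inter.1 hw).2
        rw [h3]
        exact single_le_sum (f := fun C =>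
          ((P ∩ x.1).filter (fun z => bad C (at' C z) = true)).card) (fun _ _ => Nat.zero_le _)
          (mem_filter.2 ⟨hCt, hC⟩)
    · exact Nat.zero_le _
  rw [← sum_uni Ps hd P t (fun C z => bad C (at' C z) = true)] at h1
  have h2 : ∀ C ∈ t, (((P ∩ uni Ps (univ.image C)).filter
      (fun z => bad C (at' C z) = true)).card : ℝ) ≤
      2 * p * ((P ∩ uni Ps (univ.image C)).card : ℝ) + x0 * P.card := by
    intro C hC
    refine hps (univ.image C) C ?_
    intro u
    rw [ht, mem_sdiff, mem_tup] at hC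
    have h3 := hC.2
    push Not at h3
    obtain ⟨j, hj⟩ := h3
    refine le_trans (Nat.mul_le_mul_right _ (card_le_card ?_)) (hs (C j) hj (u j))
    intro z hz
    rw [mem_filter] at hz ⊢
    exact ⟨hz.1, by rw [← hz.2]⟩
  have h3 : ∑ C ∈ t, (P ∩ uni Ps (univ.image C)).card =
      ∑ x ∈ Ps, (P ∩ x.1).card * (tup m x.2 \ tup m I).card := by
    have h4 := sum_uni Ps hd P t (fun _ _ => True)
    simp only [filter_true] at h4
    rw [h4]
    refine sum_congr rfl fun x _ => ?_
    rw [sum_const, smul_eq_mul, mul_comm]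
    congr 2
    ext C
    rw [mem_filter, ht, mem_sdiff, mem_sdiff, mem_tup, mem_tup]
    simp only [mem_univ, true_and]
    exact and_comm
  have h5 : (∑ x ∈ Ps.filter bd, ((P ∩ x.1).card : ℝ)) ≤
      ∑ C ∈ t, (((P ∩ uni Ps (univ.image C)).filter
        (fun z => bad C (at' C z) = true)).card : ℝ) := by
    exact_mod_cast h1
  refine h5.trans ((sum_le_sum h2).trans ?_)
  rw [sum_add_distrib, ← mul_sum, sum_const, nsmul_eq_mul]
  have h6 : (∑ C ∈ t, ((P ∩ uni Ps (univ.image C)).card : ℝ)) =
      ∑ x ∈ Ps, ((P ∩ x.1).card : ℝ) * ((tup m x.2 \ tup m I).card : ℝ) := by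
    exact_mod_cast h3
  rw [h6]
  have h7 : (t.card : ℝ) ≤ (Fintype.card κ : ℝ) ^ m := by
    have : t.card ≤ (Fintype.card κ) ^ m := by
      refine (card_le_univ t).trans (le_of_eq ?_)
      simp
    exact_mod_cast this
  have h8 : (t.card : ℝ) * (x0 * P.card) ≤ (Fintype.card κ : ℝ) ^ m * (x0 * P.card) :=
    mul_le_mul_of_nonneg_right h7 (by positivity)
  linarith

end Pool.Agent.Y592.DS
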