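import Mathlib
import Pool.Agent.Y592.DS.Mass

set_option autoImplicit false
set_option linter.unusedSectionVars false
set_option linter.unusedVariables false

/-!
# Walks in refutations
-/

namespace Pool.Agent.Y592.DS

open Finset

variable {κ U : Type} [Fintype κ] [DecidableEq κ] [Fintype U] [DecidableEq U] {m : ℕ}

/-- the states that can be reached with at most `n` steps -/
noncomputable def Reach (Q : ℕ) (B : Finset ((κ → U) → Bool)) (Tm : ℕ) : ℕ → Finset (St κ U)
  | 0 => {(univ, ∅)}
  | n + 1 => Reach Q B Tm n ∪ (Reach Q B Tm n).biUnion fun σ => B.biUnion fun f =>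
      (range (Tm + 1)).biUnion fun T => parts Q (σ.1.filter fun z => f z = true) σ.2 T

theorem Reach_mono {Q : ℕ} {B : Finset ((κ → U) → Bool)} {Tm : ℕ} {n n' : ℕ} (h : n ≤ n') :
    Reach Q B Tm n ⊆ Reach Q B Tm n' := by
  induction h with
  | refl => exact subset_rfl
  | step _ ih => exact ih.trans (by rw [Reach]; exact subset_union_left)

theorem mem_Reach_succ {Q : ℕ} {B : Finset ((κ → U) → Bool)} {Tm n : ℕ} {σ x : St κ U}
    (hσ : σ ∈ Reach Q B Tm n) {f : (κ → U) → Bool} (hf : f ∈ B) {T : ℕ} (hT : T ≤ Tm)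
    (hx : x ∈ parts Q (σ.1.filter fun z => f z = true) σ.2 T) : x ∈ Reach Q B Tm (n + 1) := by
  rw [Reach, mem_union]
  right
  simp only [mem_biUnion, mem_range]
  exact ⟨σ, hσ, f, hf, T, by omega, hx⟩

/-- all constraints look random for the states that can be reached with at most `n` steps -/
def Rnd (bad : (Fin m → κ) → (Fin m → U) → Bool) (Q : ℕ) (p x : ℝ)
    (B : Finset ((κ → U) → Bool)) (Tm n : ℕ) : Prop :=
  ∀ σ ∈ Reach Q B Tm n, ∀ σ0 ∈ Reach Q B Tm n, ∀ f ∈ B, ∀ T ≤ Tm, ∀ J : Finset κ,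
    Pseudo bad Q p x σ.1 (σ.1 ∩ uni (parts Q (σ0.1.filter fun z => f z = true) σ0.2 T) J)

/-- A refutation with `S` lines, at most `a` premises and at most `a` clauses per inference, and a
rank function. -/
structure Ref (bad : (Fin m → κ) → (Fin m → U) → Bool) (S a : ℕ) where
  line : Fin S → (κ → U) → Bool
  prem : Fin S → Finset (Fin S)
  cl : Fin S → Finset ((Fin m → κ) × (Fin m → U))
  card_prem : ∀ j, (prem j).card ≤ a
  card_cl : ∀ j, (cl j).card ≤ a
  cl_bad : ∀ j, ∀ c ∈ cl j, bad c.1 c.2 = true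
  sound : ∀ j z, line j z = false → (∃ p ∈ prem j, line p z = false) ∨ ∃ c ∈ cl j, at' c.1 z = c.2
  h : Fin S → ℕ
  h_lt : ∀ j, ∀ p ∈ prem j, h p < h j

variable {bad : (Fin m → κ) → (Fin m → U) → Bool} {S a : ℕ}

/-- the premise `p` of the line `j` is the first premise that is false -/
def Ref.br (π : Ref bad S a) (j p : Fin S) (z : κ → U) : Bool :=
  !π.line p z && decide (∀ p' ∈ π.prem j, p' < p → π.line p' z = true)

theorem Ref.br_iff (π : Ref bad S a) (j p : Fin S) (z : κ → U) : π.br j p z = true ↔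
    π.line p z = false ∧ ∀ p' ∈ π.prem j, p' < p → π.line p' z = true := by
  simp [Ref.br]

theorem Ref.step (π : Ref bad S a) {Q : ℕ} (hQ : 0 < Q) {P : Finset (κ → U)} {I : Finset κ}
    (hs : Spread Q P I) (hg : Good bad (P, I)) {L : Fin S} (hL : ∀ z ∈ P, π.line L z = false) :
    (P.card : ℝ) ≤ a / Q * P.card +
      ∑ p ∈ π.prem L, ((P.filter fun z => π.br L p z = true).card : ℝ) := by
  classical
  set E : Finset (κ → U) := P.filter fun z => ∃ c ∈ π.cl L, at' c.1 z = c.2 with hE
  have h1 : P ⊆ E ∪ (π.prem L).biUnion fun p => P.filter fun z => π.br L p z = true := by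
    intro z hz
    rw [mem_union]
    rcases π.sound L z (hL z hz) with ⟨p, hp, hpz⟩ | h
    · right
      obtain ⟨p0, hp0, hmin⟩ := exists_min_image ((π.prem L).filter fun p => π.line p z = false)
        (fun p => p) ⟨p, mem_filter.2 ⟨hp, hpz⟩⟩
      rw [mem_filter] at hp0
      rw [mem_biUnion]
      refine ⟨p0, hp0.1, mem_filter.2 ⟨hz, (π.br_iff L p0 z).2 ⟨hp0.2, ?_⟩⟩⟩
      intro p' hp' hlt
      by_contra hne
      rw [Bool.not_eq_true] at hne
      exact absurd (hmin p' (mem_filter.2 ⟨hp', hne⟩)) (not_le.2 hlt)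
    · left
      exact mem_filter.2 ⟨hz, h⟩
  have h2 : E.card * Q ≤ a * P.card := by
    have h3 : E ⊆ (π.cl L).biUnion fun c => P.filter fun z => at' c.1 z = c.2 := by
      intro z hz
      rw [hE, mem_filter] at hz
      obtain ⟨c, hc, hcz⟩ := hz.2
      exact mem_biUnion.2 ⟨c, hc, mem_filter.2 ⟨hz.1, hcz⟩⟩
    have h4 : ∀ c ∈ π.cl L, (P.filter fun z => at' c.1 z = c.2).card * Q ≤ P.card := by
      intro c hc
      by_cases hcI : ∀ j, c.1 j ∈ I
      · have : (P.filter fun z => at' c.1 z = c.2) = ∅ := by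
          rw [filter_eq_empty_iff]
          intro z hz he
          have h5 := hg c.1 hcI z hz
          rw [he, π.cl_bad L c hc] at h5
          exact absurd h5 (by simp)
        rw [this]; simp
      · push Not at hcI
        obtain ⟨j, hj⟩ := hcI
        refine le_trans (Nat.mul_le_mul_right _ (card_le_card ?_)) (hs (c.1 j) hj (c.2 j))
        intro z hz
        rw [mem_filter] at hz ⊢
        exact ⟨hz.1, by rw [← hz.2]⟩
    calc E.card * Q ≤ (∑ c ∈ π.cl L, (P.filter fun z => at' c.1 z = c.2).card) * Q :=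
          Nat.mul_le_mul_right _ ((card_le_card h3).trans card_biUnion_le)
      _ = ∑ c ∈ π.cl L, (P.filter fun z => at' c.1 z = c.2).card * Q := by rw [sum_mul]
      _ ≤ ∑ c ∈ π.cl L, P.card := sum_le_sum h4
      _ = (π.cl L).card * P.card := by rw [sum_const, smul_eq_mul]
      _ ≤ a * P.card := Nat.mul_le_mul_right _ (π.card_cl L)
  have h3 : P.card ≤ E.card + ∑ p ∈ π.prem L, (P.filter fun z => π.br L p z = true).card :=
    (card_le_card h1).trans ((card_union_le _ _).trans (Nat.add_le_add_left card_biUnion_le _))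
  have h4 : (E.card : ℝ) ≤ a / Q * P.card := by
    have hQ' : (0 : ℝ) < Q := by exact_mod_cast hQ
    have h5 : (E.card : ℝ) * Q ≤ a * P.card := by exact_mod_cast h2
    rw [div_mul_eq_mul_div, le_div_iff₀ hQ']
    exact h5
  have h5 : (P.card : ℝ) ≤ E.card + ∑ p ∈ π.prem L,
      ((P.filter fun z => π.br L p z = true).card : ℝ) := by exact_mod_cast h3
  linarith

theorem Ref.br_disj (π : Ref bad S a) (P : Finset (κ → U)) (L : Fin S) :
    ((π.prem L : Finset (Fin S)) : Set (Fin S)).PairwiseDisjoint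
      fun p => P.filter fun z => π.br L p z = true := by
  intro p hp p' hp' hne
  rw [Function.onFun, disjoint_left]
  intro z hz hz'
  rw [mem_filter, π.br_iff] at hz hz'
  rcases lt_or_gt_of_ne hne with h | h
  · have := hz'.2.2 p hp h
    rw [hz.2.1] at this
    exact absurd this (by simp)
  · have := hz.2.2 p' hp' h
    rw [hz'.2.1] at this
    exact absurd this (by simp)

/-- the total size of the intersections with the sets `Dsc` -/
noncomputable def val (Dsc : Fin S → Finset (κ → U)) (X : Finset (κ → U)) : ℝ :=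
  ∑ L, ((X ∩ Dsc L).card : ℝ)

theorem val_nonneg (Dsc : Fin S → Finset (κ → U)) (X : Finset (κ → U)) : 0 ≤ val Dsc X :=
  sum_nonneg fun _ _ => Nat.cast_nonneg _

theorem sum_val_le {ι : Type} [DecidableEq ι] (Dsc : Fin S → Finset (κ → U)) (s : Finset ι)
    (X : ι → Finset (κ → U)) (hX : (s : Set ι).PairwiseDisjoint X) (P : Finset (κ → U))
    (h : ∀ i ∈ s, X i ⊆ P) : ∑ i ∈ s, val Dsc (X i) ≤ val Dsc P := by
  unfold val
  rw [sum_comm]
  refine sum_le_sum fun L _ => ?_
  exact_mod_cast sum_card_inter_le s X hX P (Dsc L) h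

end Pool.Agent.Y592.DS
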