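import Mathlib
import Pool.Agent.Y592.DS.Walk

set_option autoImplicit false
set_option linter.unusedSectionVars false
set_option linter.unusedVariables false

/-!
# The main induction along the walks
-/

namespace Pool.Agent.Y592.DS

open Finset

variable {κ U : Type} [Fintype κ] [DecidableEq κ] [Fintype U] [DecidableEq U] {m : ℕ}
variable {bad : (Fin m → κ) → (Fin m → U) → Bool} {S a : ℕ}

/-- few blocks are fixed on dense sets -/
theorem dim_le {Q d : ℕ} (hQ : 2 ≤ Q) (hU : Fintype.card U = Q ^ 2) {P : Finset (κ → U)}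
    {I : Finset κ} (hP : P.Nonempty) (hc : Cst P I)
    (h : Q ^ (2 * Fintype.card κ) ≤ P.card * Q ^ I.card * Q ^ d) : I.card ≤ d := by
  have h1 := hc.card_le
  rw [hU, ← pow_mul, ← pow_mul] at h1
  have h2 : P.card * Q ^ (2 * I.card) ≤ P.card * Q ^ (I.card + d) := by
    rw [pow_add, ← mul_assoc]
    exact h1.trans h
  have h3 : Q ^ (2 * I.card) ≤ Q ^ (I.card + d) := Nat.le_of_mul_le_mul_left h2 (card_pos.2 hP)
  have h4 := (Nat.pow_le_pow_iff_right (by omega : 1 < Q)).1 h3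
  omega

/-- the properties of the states on the walks -/
structure OK (bad : (Fin m → κ) → (Fin m → U) → Bool) (Q : ℕ) (σ : St κ U) : Prop where
  ne : σ.1.Nonempty
  cst : Cst σ.1 σ.2
  spread : Spread Q σ.1 σ.2
  good : Good bad σ

/-- one branch of a step -/
theorem branch_core {Q Λ d T : ℕ} {p x0 : ℝ} (hp : 0 ≤ p) (hx0 : 0 ≤ x0) (hQ : 2 ≤ Q)
    (hU : Fintype.card U = Q ^ 2) (hΛ : 0 < Λ) {Dsc : Fin S → Finset (κ → U)}
    {P R : Finset (κ → U)} {I : Finset κ} (hne : P.Nonempty) (hcst : Cst P I)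
    (hspread : Spread Q P I) (hgood : Good bad (P, I)) (hRσ : R ⊆ P)
    {Ps : Finset (St κ U)} (hps : IsParts Q R I T Ps) (hT : T = P.card / Λ + 1)
    (hJ : ∀ J, Pseudo bad Q p x0 P (P ∩ uni Ps J)) {s : ℕ}
    (hpot : Q ^ (2 * Fintype.card κ) * Λ ^ (s + 1) ≤ P.card * Q ^ I.card * Q ^ d) {e : ℝ}
    (he : 0 ≤ e)
    (hih : ∀ x ∈ Ps, OK bad Q x →
      Q ^ (2 * Fintype.card κ) * Λ ^ s ≤ x.1.card * Q ^ x.2.card * Q ^ d →
      3 / 4 * (1 - 2 * p * ((d : ℝ) ^ m - (x.2.card : ℝ) ^ m) - e) * x.1.card ≤ val Dsc x.1) :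
    3 / 4 * ((1 - 2 * p * ((d : ℝ) ^ m - (I.card : ℝ) ^ m) - e) * R.card -
      (1 / Λ + (Fintype.card κ : ℝ) ^ m * x0) * P.card) ≤ val Dsc R := by
  classical
  have hTΛ : P.card ≤ T * Λ := by
    have := Nat.lt_div_mul_add (a := P.card) hΛ
    rw [hT, add_mul, one_mul]
    omega
  have hinter : ∀ x ∈ Ps, P ∩ x.1 = x.1 := fun x hx =>
    inter_eq_right.2 ((hps.sub x hx).trans hRσ)
  -- potentials of the parts
  have hpx : ∀ x ∈ Ps, Q ^ (2 * Fintype.card κ) * Λ ^ s ≤ x.1.card * Q ^ x.2.card * Q ^ d := by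
    intro x hx
    have h1 := hps.dense x hx
    have h2 : Q ^ (2 * Fintype.card κ) * Λ ^ s * Λ ≤ x.1.card * Q ^ x.2.card * Q ^ d * Λ := by
      calc Q ^ (2 * Fintype.card κ) * Λ ^ s * Λ
          = Q ^ (2 * Fintype.card κ) * Λ ^ (s + 1) := by ring
        _ ≤ P.card * Q ^ I.card * Q ^ d := hpot
        _ ≤ (T * Λ) * Q ^ I.card * Q ^ d :=
            Nat.mul_le_mul_right _ (Nat.mul_le_mul_right _ hTΛ)
        _ = (T * Q ^ I.card) * (Q ^ d * Λ) := by ring
        _ ≤ (x.1.card * Q ^ x.2.card) * (Q ^ d * Λ) := Nat.mul_le_mul_right _ h1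
        _ = x.1.card * Q ^ x.2.card * Q ^ d * Λ := by ring
    exact Nat.le_of_mul_le_mul_right h2 hΛ
  have hdx : ∀ x ∈ Ps, x.2.card ≤ d := by
    intro x hx
    refine dim_le hQ hU (hps.nonempty x hx) (hps.cst x hx) (le_trans ?_ (hpx x hx))
    exact Nat.le_mul_of_pos_right _ (pow_pos hΛ _)
  -- the bad parts
  have hbm := badmass (P := P) (I := I) (Ps := Ps) hp hx0 hspread hgood hps.disj hps.cst
    hJ (fun x => ¬ Good bad x) (fun _ _ h => h)
  have e1 : ∑ x ∈ Ps.filter (fun x => ¬ Good bad x), ((P ∩ x.1).card : ℝ) =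
      ∑ x ∈ Ps.filter (fun x => ¬ Good bad x), (x.1.card : ℝ) :=
    sum_congr rfl fun x hx => by rw [hinter x (mem_filter.1 hx).1]
  have e2 : ∑ x ∈ Ps, ((P ∩ x.1).card : ℝ) * ((tup m x.2 \ tup m I).card : ℝ) =
      ∑ x ∈ Ps, (x.1.card : ℝ) * ((x.2.card : ℝ) ^ m - (I.card : ℝ) ^ m) := by
    refine sum_congr rfl fun x hx => ?_
    have h1 : tup m I ⊆ tup m x.2 := by
      intro C hC
      rw [mem_tup] at hC ⊢
      exact fun j => hps.subI x hx (hC j)
    have h2 : ((tup m x.2 \ tup m I).card : ℝ) = (x.2.card : ℝ) ^ m - (I.card : ℝ) ^ m := by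
      rw [card_sdiff_of_subset h1, Nat.cast_sub (card_le_card h1), card_tup, card_tup]
      push_cast
      rfl
    rw [hinter x hx, h2]
  rw [e1, e2] at hbm
  -- values of the good parts
  have hv1 : ∑ x ∈ Ps, val Dsc x.1 ≤ val Dsc R :=
    sum_val_le Dsc Ps Prod.fst hps.disj R hps.sub
  have hv2 : ∑ x ∈ Ps.filter (fun x => Good bad x), val Dsc x.1 ≤ ∑ x ∈ Ps, val Dsc x.1 :=
    sum_le_sum_of_subset_of_nonneg (filter_subset _ _) fun _ _ _ => val_nonneg _ _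
  have hcx : ∀ x ∈ Ps, 1 - 2 * p * ((d : ℝ) ^ m - (x.2.card : ℝ) ^ m) - e ≤ 1 := by
    intro x hx
    have h1 : (x.2.card : ℝ) ^ m ≤ (d : ℝ) ^ m :=
      pow_le_pow_left₀ (Nat.cast_nonneg _) (by exact_mod_cast hdx x hx) m
    have h2 : 0 ≤ 2 * p * ((d : ℝ) ^ m - (x.2.card : ℝ) ^ m) :=
      mul_nonneg (by positivity) (by linarith)
    linarith
  have hv3 : ∑ x ∈ Ps.filter (fun x => Good bad x),
      3 / 4 * ((1 - 2 * p * ((d : ℝ) ^ m - (x.2.card : ℝ) ^ m) - e) * (x.1.card : ℝ)) ≤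
      ∑ x ∈ Ps.filter (fun x => Good bad x), val Dsc x.1 := by
    refine sum_le_sum fun x hx => ?_
    rw [mem_filter] at hx
    have := hih x hx.1 ⟨hps.nonempty x hx.1, hps.cst x hx.1, hps.spread x hx.1, hx.2⟩ (hpx x hx.1)
    rw [← mul_assoc]
    exact this
  have hsplit := sum_filter_add_sum_filter_not Ps (fun x => Good bad x)
    (fun x => (1 - 2 * p * ((d : ℝ) ^ m - (x.2.card : ℝ) ^ m) - e) * (x.1.card : ℝ))
  have hv4 : ∑ x ∈ Ps.filter (fun x => ¬ Good bad x),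
      (1 - 2 * p * ((d : ℝ) ^ m - (x.2.card : ℝ) ^ m) - e) * (x.1.card : ℝ) ≤
      ∑ x ∈ Ps.filter (fun x => ¬ Good bad x), (x.1.card : ℝ) := by
    refine sum_le_sum fun x hx => ?_
    rw [mem_filter] at hx
    exact mul_le_of_le_one_left (Nat.cast_nonneg _) (hcx x hx.1)
  obtain ⟨c, hc⟩ : ∃ c : ℝ, c = 1 - 2 * p * ((d : ℝ) ^ m - (I.card : ℝ) ^ m) - e := ⟨_, rfl⟩
  have hv5 : ∑ x ∈ Ps, (1 - 2 * p * ((d : ℝ) ^ m - (x.2.card : ℝ) ^ m) - e) * (x.1.card : ℝ) =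
      c * ∑ x ∈ Ps, (x.1.card : ℝ) +
      2 * p * ∑ x ∈ Ps, (x.1.card : ℝ) * ((x.2.card : ℝ) ^ m - (I.card : ℝ) ^ m) := by
    rw [mul_sum, mul_sum, ← sum_add_distrib]
    refine sum_congr rfl fun x _ => ?_
    rw [hc]
    ring
  -- the rest
  have hrest : (R.card : ℝ) - P.card / Λ ≤ ∑ x ∈ Ps, (x.1.card : ℝ) := by
    have h1 := hps.rest
    have h2 : R.card ≤ ∑ x ∈ Ps, x.1.card + P.card / Λ := by
      rw [hT] at h1
      exact Nat.lt_succ_iff.1 h1
    have h3 : (R.card : ℝ) ≤ ∑ x ∈ Ps, (x.1.card : ℝ) + ((P.card / Λ : ℕ) : ℝ) := by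
      exact_mod_cast h2
    have h4 : ((P.card / Λ : ℕ) : ℝ) ≤ (P.card : ℝ) / Λ := Nat.cast_div_le
    linarith
  have hrest2 : ∑ x ∈ Ps, (x.1.card : ℝ) ≤ R.card := by
    have h1 : ∑ x ∈ Ps, x.1.card ≤ R.card := by
      rw [← card_biUnion hps.disj]
      exact card_le_card (biUnion_subset.2 hps.sub)
    exact_mod_cast h1
  have hσd : I.card ≤ d := by
    refine dim_le hQ hU hne hcst (le_trans ?_ hpot)
    exact Nat.le_mul_of_pos_right _ (pow_pos hΛ _)
  have hc1 : c ≤ 1 := by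
    have h1 : (I.card : ℝ) ^ m ≤ (d : ℝ) ^ m :=
      pow_le_pow_left₀ (Nat.cast_nonneg _) (by exact_mod_cast hσd) m
    have h2 : 0 ≤ 2 * p * ((d : ℝ) ^ m - (I.card : ℝ) ^ m) :=
      mul_nonneg (by positivity) (by linarith)
    rw [hc]
    linarith
  have hΛ' : (0 : ℝ) ≤ P.card / Λ := by positivity
  have hlast : c * R.card - P.card / Λ ≤ c * ∑ x ∈ Ps, (x.1.card : ℝ) := by
    rcases le_or_gt 0 c with h | h
    · have h1 : c * (R.card - P.card / Λ) ≤ c * ∑ x ∈ Ps, (x.1.card : ℝ) :=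
        mul_le_mul_of_nonneg_left hrest h
      have h2 : c * (P.card / Λ) ≤ 1 * (P.card / Λ) := mul_le_mul_of_nonneg_right hc1 hΛ'
      linarith
    · have h1 : c * R.card ≤ c * ∑ x ∈ Ps, (x.1.card : ℝ) :=
        mul_le_mul_of_nonpos_left hrest2 h.le
      linarith
  rw [← mul_sum] at hv3
  have h9 : (1 : ℝ) / Λ * P.card = P.card / Λ := by ring
  rw [← hc, add_mul, h9]
  linarith

/-- **The main induction.** -/
theorem claim (π : Ref bad S a) {Q Tm n Λ d : ℕ} {p x0 : ℝ} (hp : 0 ≤ p) (hx0 : 0 ≤ x0)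
    (hQ : 2 ≤ Q) (hU : Fintype.card U = Q ^ 2) {B : Finset ((κ → U) → Bool)}
    (hB : ∀ j, ∀ q ∈ π.prem j, π.br j q ∈ B) (hr : Rnd bad Q p x0 B Tm n)
    (hTm : Fintype.card (κ → U) + 1 ≤ Tm) (hΛ : 0 < Λ) {Dsc : Fin S → Finset (κ → U)}
    {P0 : Finset (κ → U)} {t H0 : ℕ}
    (hstar : ∀ σ ∈ Reach Q B Tm n, ∀ L, π.h L + t ≤ H0 → σ.1 ⊆ P0 →
      (∀ z ∈ σ.1, π.line L z = false) → OK bad Q σ → σ.2.card ≤ d →
      3 / 4 * (σ.1.card : ℝ) ≤ (σ.1 ∩ Dsc L).card) :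
    ∀ (s n' : ℕ), n' + s ≤ n → ∀ σ ∈ Reach Q B Tm n', ∀ L, π.h L + t ≤ H0 + s → σ.1 ⊆ P0 →
      (∀ z ∈ σ.1, π.line L z = false) → OK bad Q σ →
      Q ^ (2 * Fintype.card κ) * Λ ^ s ≤ σ.1.card * Q ^ σ.2.card * Q ^ d →
      3 / 4 * (1 - 2 * p * ((d : ℝ) ^ m - (σ.2.card : ℝ) ^ m) -
        s * (a * (1 / Q + 1 / Λ + (Fintype.card κ : ℝ) ^ m * x0))) * σ.1.card ≤
        val Dsc σ.1 := by
  classical
  set e : ℝ := a * (1 / Q + 1 / Λ + (Fintype.card κ : ℝ) ^ m * x0) with he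
  have he0 : 0 ≤ e := by positivity
  intro s
  induction s with
  | zero =>
    intro n' hn' σ hσ L hL hP0 hline hok hpot
    have hσd : σ.2.card ≤ d := by
      refine dim_le hQ hU hok.ne hok.cst (le_trans ?_ hpot)
      simp
    have h1 := hstar σ (Reach_mono (by omega) hσ) L (by omega) hP0 hline hok hσd
    have h2 : ((σ.1 ∩ Dsc L).card : ℝ) ≤ val Dsc σ.1 :=
      single_le_sum (f := fun L => ((σ.1 ∩ Dsc L).card : ℝ)) (fun _ _ => Nat.cast_nonneg _)
        (mem_univ L)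
    have h3 : (σ.2.card : ℝ) ^ m ≤ (d : ℝ) ^ m :=
      pow_le_pow_left₀ (Nat.cast_nonneg _) (by exact_mod_cast hσd) m
    have h4 : 0 ≤ 2 * p * ((d : ℝ) ^ m - (σ.2.card : ℝ) ^ m) :=
      mul_nonneg (by positivity) (by linarith)
    have h5 : (0 : ℝ) ≤ σ.1.card := Nat.cast_nonneg _
    have h6 : (1 - 2 * p * ((d : ℝ) ^ m - (σ.2.card : ℝ) ^ m) - ((0 : ℕ) : ℝ) * e) ≤ 1 := by
      rw [Nat.cast_zero, zero_mul]
      linarith
    calc 3 / 4 * (1 - 2 * p * ((d : ℝ) ^ m - (σ.2.card : ℝ) ^ m) - ((0 : ℕ) : ℝ) * e) * σ.1.card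
        ≤ 3 / 4 * 1 * σ.1.card := by
          refine mul_le_mul_of_nonneg_right ?_ h5
          linarith
      _ ≤ val Dsc σ.1 := by linarith
  | succ s ih =>
    intro n' hn' σ hσ L hL hP0 hline hok hpot
    have hσn : σ ∈ Reach Q B Tm n := Reach_mono (by omega) hσ
    have hTle : σ.1.card / Λ + 1 ≤ Tm := by
      have h1 : σ.1.card / Λ ≤ σ.1.card := Nat.div_le_self _ _
      have h2 : σ.1.card ≤ Fintype.card (κ → U) := card_le_univ _
      omega
    have hbr : ∀ q ∈ π.prem L, 3 / 4 * ((1 - 2 * p * ((d : ℝ) ^ m - (σ.2.card : ℝ) ^ m) -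
        (s : ℝ) * e) * (σ.1.filter fun z => π.br L q z = true).card -
        (1 / Λ + (Fintype.card κ : ℝ) ^ m * x0) * σ.1.card) ≤
        val Dsc (σ.1.filter fun z => π.br L q z = true) := by
      intro q hq
      have hps := parts_spec Q (hok.cst.mono (filter_subset (fun z => π.br L q z = true) σ.1))
        (T := σ.1.card / Λ + 1) (Nat.succ_pos _)
      refine branch_core (Q := Q) (Λ := Λ) (d := d) hp hx0 hQ hU hΛ hok.ne hok.cst hok.spread
        hok.good (filter_subset _ _) hps rfl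
        (fun J => hr σ hσn σ hσn _ (hB L q hq) _ hTle J) hpot (by positivity) ?_
      intro x hx hokx hpotx
      have hsub := hps.sub x hx
      refine ih (n' + 1) (by omega) x (mem_Reach_succ hσ (hB L q hq) hTle hx) q ?_ ?_ ?_ hokx hpotx
      · have := π.h_lt L q hq
        omega
      · exact (hsub.trans (filter_subset _ _)).trans hP0
      · intro z hz
        have := (mem_filter.1 (hsub hz)).2
        exact ((π.br_iff L q z).1 this).1
    have hstep := π.step (by omega : 0 < Q) hok.spread hok.good hline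
    have hsum := sum_le_sum hbr
    have hval := sum_val_le Dsc (π.prem L) (fun q => σ.1.filter fun z => π.br L q z = true)
      (π.br_disj σ.1 L) σ.1 (fun q _ => filter_subset _ _)
    rw [← mul_sum, sum_sub_distrib, ← mul_sum, sum_const, nsmul_eq_mul] at hsum
    set X : ℝ := ∑ q ∈ π.prem L, ((σ.1.filter fun z => π.br L q z = true).card : ℝ) with hX
    set c : ℝ := 1 - 2 * p * ((d : ℝ) ^ m - (σ.2.card : ℝ) ^ m) - s * e with hc
    have hXle : X ≤ σ.1.card := by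
      have h1 : ∑ q ∈ π.prem L, (σ.1.filter fun z => π.br L q z = true).card ≤ σ.1.card := by
        rw [← card_biUnion (π.br_disj σ.1 L)]
        exact card_le_card (biUnion_subset.2 fun q _ => filter_subset _ _)
      rw [hX]
      exact_mod_cast h1
    have hσd : σ.2.card ≤ d := by
      refine dim_le hQ hU hok.ne hok.cst (le_trans ?_ hpot)
      exact Nat.le_mul_of_pos_right _ (pow_pos hΛ _)
    have hc1 : c ≤ 1 := by
      have h1 : (σ.2.card : ℝ) ^ m ≤ (d : ℝ) ^ m :=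
        pow_le_pow_left₀ (Nat.cast_nonneg _) (by exact_mod_cast hσd) m
      have h2 : 0 ≤ 2 * p * ((d : ℝ) ^ m - (σ.2.card : ℝ) ^ m) :=
        mul_nonneg (by positivity) (by linarith)
      have h3 : (0 : ℝ) ≤ s * e := by positivity
      rw [hc]
      linarith
    have hcard : ((π.prem L).card : ℝ) ≤ a := by exact_mod_cast π.card_prem L
    have hy : (0 : ℝ) ≤ (1 / Λ + (Fintype.card κ : ℝ) ^ m * x0) * σ.1.card := by positivity
    have hz : ((π.prem L).card : ℝ) * ((1 / Λ + (Fintype.card κ : ℝ) ^ m * x0) * σ.1.card) ≤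
        a * ((1 / Λ + (Fintype.card κ : ℝ) ^ m * x0) * σ.1.card) :=
      mul_le_mul_of_nonneg_right hcard hy
    have haQ : (0 : ℝ) ≤ a / Q * σ.1.card := by positivity
    have hcX : c * σ.1.card - a / Q * σ.1.card ≤ c * X := by
      rcases le_or_gt 0 c with h | h
      · nlinarith
      · have h1 : c * σ.1.card ≤ c * X := mul_le_mul_of_nonpos_left hXle h.le
        linarith
    have hfin : 3 / 4 * (1 - 2 * p * ((d : ℝ) ^ m - (σ.2.card : ℝ) ^ m) -
        ((s + 1 : ℕ) : ℝ) * e) * σ.1.card =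
        3 / 4 * (c * σ.1.card - a / Q * σ.1.card -
          a * ((1 / Λ + (Fintype.card κ : ℝ) ^ m * x0) * σ.1.card)) := by
      rw [hc, he]
      push_cast
      ring
    rw [hfin]
    linarith

end Pool.Agent.Y592.DS
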