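import Mathlib
import Pool.Agent.Y592.DS.Claim

set_option autoImplicit false
set_option linter.unusedSectionVars false
set_option linter.unusedVariables false

/-!
# Stages of the walk, and the lower bound for the rank
-/

namespace Pool.Agent.Y592.DS

open Finset

variable {κ U : Type} [Fintype κ] [DecidableEq κ] [Fintype U] [DecidableEq U] {m : ℕ}
variable {bad : (Fin m → κ) → (Fin m → U) → Bool} {S a : ℕ}

/-- one stage: `t` fine steps, then one coarse step -/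
theorem stage (π : Ref bad S a) {Q Tm n Λ d : ℕ} {p x0 : ℝ} (hp : 0 ≤ p) (hx0 : 0 ≤ x0)
    (hQ : 2 ≤ Q) (hU : Fintype.card U = Q ^ 2) {B : Finset ((κ → U) → Bool)}
    (hB : ∀ j, ∀ q ∈ π.prem j, π.br j q ∈ B) (hB2 : ∀ j, (fun z => !π.line j z) ∈ B)
    (hr : Rnd bad Q p x0 B Tm n)
    (hTm : Fintype.card (κ → U) + 1 ≤ Tm) (hΛ : 0 < Λ) {t : ℕ}
    (hsmall1 : 2 * p * (d : ℝ) ^ m +
      t * (a * (1 / Q + 1 / Λ + (Fintype.card κ : ℝ) ^ m * x0)) ≤ 1 / 2)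
    (hsmall2 : 2 * p * (d : ℝ) ^ m + (Fintype.card κ : ℝ) ^ m * x0 ≤ 1 / 4)
    {n0 i : ℕ} (hn0 : n0 + t ≤ n) {σ0 : St κ U} (hσ0 : σ0 ∈ Reach Q B Tm n0) {L0 : Fin S}
    (hL0 : ∀ z ∈ σ0.1, π.line L0 z = false) (hok : OK bad Q σ0)
    (hpot : Q ^ (2 * Fintype.card κ) ≤ σ0.1.card * Q ^ σ0.2.card * (8 * S) ^ i)
    (hd : (8 * S) ^ (i + 1) * Λ ^ t ≤ Q ^ d) :
    ∃ σ1 ∈ Reach Q B Tm (n0 + 1), ∃ L1, π.h L1 + t ≤ π.h L0 ∧
      (∀ z ∈ σ1.1, π.line L1 z = false) ∧ OK bad Q σ1 ∧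
      Q ^ (2 * Fintype.card κ) ≤ σ1.1.card * Q ^ σ1.2.card * (8 * S) ^ (i + 1) := by
  classical
  have hS : 0 < S := Nat.pos_of_ne_zero (by rintro rfl; exact L0.elim0)
  have hσ0n : σ0 ∈ Reach Q B Tm n := Reach_mono (by omega) hσ0
  obtain ⟨T, hT⟩ : ∃ T : ℕ, T = σ0.1.card / (8 * S) + 1 := ⟨_, rfl⟩
  have hT1 : 1 ≤ T := by rw [hT]; exact Nat.succ_pos _
  have hTle : T ≤ Tm := by
    have h1 : σ0.1.card / (8 * S) ≤ σ0.1.card := Nat.div_le_self _ _
    have h2 : σ0.1.card ≤ Fintype.card (κ → U) := card_le_univ _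
    rw [hT]
    exact (Nat.succ_le_succ (h1.trans h2)).trans hTm
  have hTS : σ0.1.card ≤ T * (8 * S) := by
    have := Nat.lt_div_mul_add (a := σ0.1.card) (b := 8 * S) (by omega)
    rw [hT, add_mul, one_mul]
    exact this.le
  by_contra hcon
  push Not at hcon
  -- the coarse parts
  obtain ⟨R, hR⟩ : ∃ R : Fin S → Finset (κ → U),
      ∀ L, R L = σ0.1.filter fun z => (!π.line L z) = true := ⟨_, fun _ => rfl⟩
  obtain ⟨Ps, hPs⟩ : ∃ Ps : Fin S → Finset (St κ U), ∀ L, Ps L = parts Q (R L) σ0.2 T :=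
    ⟨_, fun _ => rfl⟩
  have hRsub : ∀ L, R L ⊆ σ0.1 := fun L => by rw [hR]; exact filter_subset _ _
  have hps : ∀ L, IsParts Q (R L) σ0.2 T (Ps L) := fun L => by
    rw [hPs]; exact parts_spec Q (hok.cst.mono (hRsub L)) hT1
  -- their potentials
  have hpx : ∀ L, ∀ x ∈ Ps L,
      Q ^ (2 * Fintype.card κ) ≤ x.1.card * Q ^ x.2.card * (8 * S) ^ (i + 1) := by
    intro L x hx
    have h1 := (hps L).dense x hx
    calc Q ^ (2 * Fintype.card κ) ≤ σ0.1.card * Q ^ σ0.2.card * (8 * S) ^ i := hpot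
      _ ≤ (T * (8 * S)) * Q ^ σ0.2.card * (8 * S) ^ i :=
          Nat.mul_le_mul_right _ (Nat.mul_le_mul_right _ hTS)
      _ = (T * Q ^ σ0.2.card) * (8 * S) ^ (i + 1) := by ring
      _ ≤ (x.1.card * Q ^ x.2.card) * (8 * S) ^ (i + 1) := Nat.mul_le_mul_right _ h1
  have hdx : ∀ L, ∀ x ∈ Ps L, x.2.card ≤ d := by
    intro L x hx
    refine dim_le hQ hU ((hps L).nonempty x hx) ((hps L).cst x hx) ((hpx L x hx).trans ?_)
    refine Nat.mul_le_mul_left _ (le_trans ?_ hd)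
    exact Nat.le_mul_of_pos_right _ (pow_pos hΛ _)
  have hbadx : ∀ L, π.h L + t ≤ π.h L0 → ∀ x ∈ Ps L, ¬ Good bad x := by
    intro L hL x hx hg
    have hmem : x ∈ Reach Q B Tm (n0 + 1) := by
      refine mem_Reach_succ hσ0 (hB2 L) hTle (T := T) ?_
      rw [← hR, ← hPs]
      exact hx
    refine absurd (hpx L x hx) (not_le.2 (hcon x hmem L hL ?_
      ⟨(hps L).nonempty x hx, (hps L).cst x hx, (hps L).spread x hx, hg⟩))
    intro z hz
    have := (hps L).sub x hx hz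
    rw [hR, mem_filter] at this
    simpa using this.2
  -- the discarded sets
  obtain ⟨Dsc, hDsc⟩ : ∃ Dsc : Fin S → Finset (κ → U),
      ∀ L, Dsc L = R L \ (Ps L).biUnion Prod.fst := ⟨_, fun _ => rfl⟩
  have hDcard : ∀ L, ((Dsc L).card : ℝ) ≤ σ0.1.card / (8 * S : ℝ) := by
    intro L
    have h1 : (Dsc L).card = (R L).card - ∑ x ∈ Ps L, x.1.card := by
      rw [hDsc, card_sdiff_of_subset (biUnion_subset.2 (hps L).sub), card_biUnion (hps L).disj]
    have h2 := (hps L).rest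
    have h3 : (Dsc L).card ≤ σ0.1.card / (8 * S) := by
      rw [hT] at h2
      omega
    have h4 : ((σ0.1.card / (8 * S) : ℕ) : ℝ) ≤ (σ0.1.card : ℝ) / ((8 * S : ℕ) : ℝ) :=
      Nat.cast_div_le
    have h5 : ((Dsc L).card : ℝ) ≤ ((σ0.1.card / (8 * S) : ℕ) : ℝ) := by exact_mod_cast h3
    push_cast at h4
    exact h5.trans h4
  have hstar : ∀ σ ∈ Reach Q B Tm n, ∀ L, π.h L + t ≤ π.h L0 → σ.1 ⊆ σ0.1 →
      (∀ z ∈ σ.1, π.line L z = false) → OK bad Q σ → σ.2.card ≤ d →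
      3 / 4 * (σ.1.card : ℝ) ≤ (σ.1 ∩ Dsc L).card := by
    intro σ hσ L hL hsub hline hokσ hσd
    have hsubR : σ.1 ⊆ R L := by
      intro z hz
      rw [hR, mem_filter]
      exact ⟨hsub hz, by rw [hline z hz]; rfl⟩
    have hJ : ∀ J, Pseudo bad Q p x0 σ.1 (σ.1 ∩ uni (Ps L) J) := by
      intro J
      rw [hPs, hR]
      exact hr σ hσ σ0 hσ0n _ (hB2 L) T hTle J
    have hgood : Good bad (σ.1, σ.2) := hokσ.good
    have hbm := badmass (P := σ.1) (I := σ.2) (Ps := Ps L) hp hx0 hokσ.spread hgood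
      (hps L).disj (hps L).cst hJ (fun _ => True) (fun x hx _ => hbadx L hL x hx)
    rw [filter_true] at hbm
    have h1 : ∑ x ∈ Ps L, ((σ.1 ∩ x.1).card : ℝ) * ((tup m x.2 \ tup m σ.2).card : ℝ) ≤
        (∑ x ∈ Ps L, ((σ.1 ∩ x.1).card : ℝ)) * (d : ℝ) ^ m := by
      rw [sum_mul]
      refine sum_le_sum fun x hx => mul_le_mul_of_nonneg_left ?_ (Nat.cast_nonneg _)
      have h2 : (tup m x.2 \ tup m σ.2).card ≤ d ^ m := by
        refine (card_le_card sdiff_subset).trans ?_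
        rw [card_tup]
        exact Nat.pow_le_pow_left (hdx L x hx) m
      exact_mod_cast h2
    obtain ⟨W, hW⟩ : ∃ W : ℝ, W = ∑ x ∈ Ps L, ((σ.1 ∩ x.1).card : ℝ) := ⟨_, rfl⟩
    rw [← hW] at h1 hbm
    have hWle : W ≤ σ.1.card := by
      have h2 : ∑ x ∈ Ps L, (σ.1 ∩ x.1).card ≤ σ.1.card := by
        rw [← card_biUnion]
        · exact card_le_card (biUnion_subset.2 fun x _ => inter_subset_left)
        · intro x hx y hy hxy
          exact disjoint_of_subset_left inter_subset_right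
            (disjoint_of_subset_right inter_subset_right ((hps L).disj hx hy hxy))
      rw [hW]
      exact_mod_cast h2
    have hW0 : 0 ≤ W := by rw [hW]; exact sum_nonneg fun _ _ => Nat.cast_nonneg _
    have hcov : (σ.1.card : ℝ) ≤ (σ.1 ∩ Dsc L).card + W := by
      have h2 : σ.1 ⊆ (σ.1 ∩ Dsc L) ∪ (Ps L).biUnion fun x => σ.1 ∩ x.1 := by
        intro z hz
        rw [mem_union]
        by_cases h3 : z ∈ (Ps L).biUnion Prod.fst
        · right
          obtain ⟨x, hx, hzx⟩ := mem_biUnion.1 h3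
          exact mem_biUnion.2 ⟨x, hx, mem_inter.2 ⟨hz, hzx⟩⟩
        · left
          rw [mem_inter, hDsc, mem_sdiff]
          exact ⟨hz, hsubR hz, h3⟩
      have h3 : σ.1.card ≤ (σ.1 ∩ Dsc L).card + ∑ x ∈ Ps L, (σ.1 ∩ x.1).card :=
        (card_le_card h2).trans ((card_union_le _ _).trans (Nat.add_le_add_left card_biUnion_le _))
      rw [hW]
      exact_mod_cast h3
    have h4 : W ≤ 1 / 4 * σ.1.card := by
      have h5 : 2 * p * ∑ x ∈ Ps L, ((σ.1 ∩ x.1).card : ℝ) * ((tup m x.2 \ tup m σ.2).card : ℝ) ≤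
          2 * p * (W * (d : ℝ) ^ m) := mul_le_mul_of_nonneg_left h1 (by positivity)
      have h6 : 2 * p * (W * (d : ℝ) ^ m) ≤ 2 * p * (d : ℝ) ^ m * σ.1.card := by
        have : 2 * p * (W * (d : ℝ) ^ m) = 2 * p * (d : ℝ) ^ m * W := by ring
        rw [this]
        exact mul_le_mul_of_nonneg_left hWle (by positivity)
      have h7 : (2 * p * (d : ℝ) ^ m + (Fintype.card κ : ℝ) ^ m * x0) * σ.1.card ≤
          1 / 4 * σ.1.card := mul_le_mul_of_nonneg_right hsmall2 (Nat.cast_nonneg _)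
      rw [add_mul] at h7
      linarith
    linarith
  have hmain := claim π hp hx0 hQ hU hB hr hTm hΛ hstar t n0 hn0 σ0 hσ0 L0 (by omega)
    (subset_refl _) hL0 hok (by
      calc Q ^ (2 * Fintype.card κ) * Λ ^ t
          ≤ σ0.1.card * Q ^ σ0.2.card * (8 * S) ^ i * Λ ^ t := Nat.mul_le_mul_right _ hpot
        _ = σ0.1.card * Q ^ σ0.2.card * ((8 * S) ^ i * Λ ^ t) := by ring
        _ ≤ σ0.1.card * Q ^ σ0.2.card * Q ^ d := by
            refine Nat.mul_le_mul_left _ (le_trans (Nat.mul_le_mul_right _ ?_) hd)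
            exact Nat.pow_le_pow_right (by omega) (Nat.le_succ i))
  have hval : val Dsc σ0.1 ≤ 1 / 8 * σ0.1.card := by
    unfold val
    have h1 : ∀ L ∈ (univ : Finset (Fin S)), ((σ0.1 ∩ Dsc L).card : ℝ) ≤
        σ0.1.card / (8 * S : ℝ) := by
      intro L _
      refine le_trans ?_ (hDcard L)
      exact_mod_cast card_le_card inter_subset_right
    refine (sum_le_sum h1).trans ?_
    rw [sum_const, card_univ, Fintype.card_fin, nsmul_eq_mul]
    have hS' : (S : ℝ) ≠ 0 := by positivity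
    field_simp
    exact le_refl _
  have hpos : (0 : ℝ) < σ0.1.card := by exact_mod_cast card_pos.2 hok.ne
  have hcoef : (1 : ℝ) / 2 ≤ 1 - 2 * p * ((d : ℝ) ^ m - (σ0.2.card : ℝ) ^ m) -
      t * (a * (1 / Q + 1 / Λ + (Fintype.card κ : ℝ) ^ m * x0)) := by
    have h1 : (0 : ℝ) ≤ 2 * p * (σ0.2.card : ℝ) ^ m := by positivity
    have h2 : 2 * p * ((d : ℝ) ^ m - (σ0.2.card : ℝ) ^ m) =
      2 * p * (d : ℝ) ^ m - 2 * p * (σ0.2.card : ℝ) ^ m := by ring
    rw [h2]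
    linarith
  have h8 : 3 / 4 * (1 / 2) * (σ0.1.card : ℝ) ≤ 3 / 4 *
      (1 - 2 * p * ((d : ℝ) ^ m - (σ0.2.card : ℝ) ^ m) -
      t * (a * (1 / Q + 1 / Λ + (Fintype.card κ : ℝ) ^ m * x0))) * σ0.1.card :=
    mul_le_mul_of_nonneg_right (mul_le_mul_of_nonneg_left hcoef (by norm_num)) hpos.le
  linarith

/-- the last stage -/
theorem last_stage (π : Ref bad S a) {Q Tm n Λ d : ℕ} {p x0 : ℝ} (hp : 0 ≤ p) (hx0 : 0 ≤ x0)
    (hQ : 2 ≤ Q) (hU : Fintype.card U = Q ^ 2) {B : Finset ((κ → U) → Bool)}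
    (hB : ∀ j, ∀ q ∈ π.prem j, π.br j q ∈ B) (hr : Rnd bad Q p x0 B Tm n)
    (hTm : Fintype.card (κ → U) + 1 ≤ Tm) (hΛ : 0 < Λ) {t : ℕ}
    (hsmall1 : 2 * p * (d : ℝ) ^ m +
      t * (a * (1 / Q + 1 / Λ + (Fintype.card κ : ℝ) ^ m * x0)) ≤ 1 / 2)
    {n0 i : ℕ} (hn0 : n0 + t ≤ n) {σ0 : St κ U} (hσ0 : σ0 ∈ Reach Q B Tm n0) {L0 : Fin S}
    (hL0 : ∀ z ∈ σ0.1, π.line L0 z = false) (hok : OK bad Q σ0)
    (hpot : Q ^ (2 * Fintype.card κ) ≤ σ0.1.card * Q ^ σ0.2.card * (8 * S) ^ i)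
    (hd : (8 * S) ^ i * Λ ^ t ≤ Q ^ d) : t ≤ π.h L0 := by
  classical
  by_contra hcon
  push Not at hcon
  have hstar : ∀ σ ∈ Reach Q B Tm n, ∀ L, π.h L + t ≤ π.h L0 → σ.1 ⊆ σ0.1 →
      (∀ z ∈ σ.1, π.line L z = false) → OK bad Q σ → σ.2.card ≤ d →
      3 / 4 * (σ.1.card : ℝ) ≤ (σ.1 ∩ (fun _ : Fin S => (∅ : Finset (κ → U))) L).card := by
    intro σ _ L hL
    omega
  have hmain := claim π hp hx0 hQ hU hB hr hTm hΛ hstar t n0 hn0 σ0 hσ0 L0 (by omega)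
    (subset_refl _) hL0 hok (by
      calc Q ^ (2 * Fintype.card κ) * Λ ^ t
          ≤ σ0.1.card * Q ^ σ0.2.card * (8 * S) ^ i * Λ ^ t := Nat.mul_le_mul_right _ hpot
        _ = σ0.1.card * Q ^ σ0.2.card * ((8 * S) ^ i * Λ ^ t) := by ring
        _ ≤ σ0.1.card * Q ^ σ0.2.card * Q ^ d := Nat.mul_le_mul_left _ hd)
  have hval : val (fun _ : Fin S => (∅ : Finset (κ → U))) σ0.1 = 0 := by
    simp [val]
  rw [hval] at hmain
  have hpos : (0 : ℝ) < σ0.1.card := by exact_mod_cast card_pos.2 hok.ne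
  have hcoef : (1 : ℝ) / 2 ≤ 1 - 2 * p * ((d : ℝ) ^ m - (σ0.2.card : ℝ) ^ m) -
      t * (a * (1 / Q + 1 / Λ + (Fintype.card κ : ℝ) ^ m * x0)) := by
    have h1 : (0 : ℝ) ≤ 2 * p * (σ0.2.card : ℝ) ^ m := by positivity
    have h2 : 2 * p * ((d : ℝ) ^ m - (σ0.2.card : ℝ) ^ m) =
      2 * p * (d : ℝ) ^ m - 2 * p * (σ0.2.card : ℝ) ^ m := by ring
    rw [h2]
    linarith
  have h8 : 3 / 4 * (1 / 2) * (σ0.1.card : ℝ) ≤ 3 / 4 *
      (1 - 2 * p * ((d : ℝ) ^ m - (σ0.2.card : ℝ) ^ m) -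
      t * (a * (1 / Q + 1 / Λ + (Fintype.card κ : ℝ) ^ m * x0))) * σ0.1.card :=
    mul_le_mul_of_nonneg_right (mul_le_mul_of_nonneg_left hcoef (by norm_num)) hpos.le
  linarith

/-- **The lower bound for the rank of the last line.** -/
theorem rank_ge (π : Ref bad S a) {Q Tm n Λ d : ℕ} {p x0 : ℝ} (hp : 0 ≤ p) (hx0 : 0 ≤ x0)
    (hm : 0 < m) (hQ : 2 ≤ Q) (hU : Fintype.card U = Q ^ 2) {B : Finset ((κ → U) → Bool)}
    (hB : ∀ j, ∀ q ∈ π.prem j, π.br j q ∈ B) (hB2 : ∀ j, (fun z => !π.line j z) ∈ B)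
    (hr : Rnd bad Q p x0 B Tm n)
    (hTm : Fintype.card (κ → U) + 1 ≤ Tm) (hΛ : 0 < Λ) {t r : ℕ}
    (hsmall1 : 2 * p * (d : ℝ) ^ m +
      t * (a * (1 / Q + 1 / Λ + (Fintype.card κ : ℝ) ^ m * x0)) ≤ 1 / 2)
    (hsmall2 : 2 * p * (d : ℝ) ^ m + (Fintype.card κ : ℝ) ^ m * x0 ≤ 1 / 4)
    (hn : r + t ≤ n) {L : Fin S} (hL : ∀ z, π.line L z = false)
    (hd : (8 * S) ^ r * Λ ^ t ≤ Q ^ d) : (r + 1) * t ≤ π.h L := by
  classical
  have hS : 0 < S := Nat.pos_of_ne_zero (by rintro rfl; exact L.elim0)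
  have hUpos : 0 < Fintype.card U := by rw [hU]; positivity
  have key : ∀ i ≤ r, ∃ σ ∈ Reach Q B Tm i, ∃ L', π.h L' + i * t ≤ π.h L ∧
      (∀ z ∈ σ.1, π.line L' z = false) ∧ OK bad Q σ ∧
      Q ^ (2 * Fintype.card κ) ≤ σ.1.card * Q ^ σ.2.card * (8 * S) ^ i := by
    intro i
    induction i with
    | zero =>
      intro _
      have hcardZ : (univ : Finset (κ → U)).card = Q ^ (2 * Fintype.card κ) := by
        rw [card_univ, Fintype.card_fun, hU, ← pow_mul]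
      refine ⟨(univ, ∅), by simp [Reach], L, by omega, fun z _ => hL z, ⟨?_, ?_, ?_, ?_⟩, ?_⟩
      · show (univ : Finset (κ → U)).Nonempty
        rw [← card_pos, hcardZ]
        positivity
      · intro i hi
        exact absurd hi (notMem_empty i)
      · intro j _ v
        show ((univ : Finset (κ → U)).filter fun z => z j = v).card * Q ≤
          (univ : Finset (κ → U)).card
        have hj : Cst ((univ : Finset (κ → U)).filter fun z => z j = v) {j} := by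
          intro j' hj' z hz z' hz'
          rw [mem_singleton] at hj'
          subst hj'
          rw [(mem_filter.1 hz).2, (mem_filter.1 hz').2]
        have h1 := hj.card_le
        rw [card_singleton, pow_one, hU] at h1
        rw [card_univ, Fintype.card_fun, hU]
        refine le_trans (Nat.mul_le_mul_left _ ?_) h1
        rw [pow_two]
        exact Nat.le_mul_of_pos_left _ (by omega)
      · intro C hC
        exact absurd (hC ⟨0, hm⟩) (notMem_empty _)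
      · show Q ^ (2 * Fintype.card κ) ≤ (univ : Finset (κ → U)).card * Q ^ (∅ : Finset κ).card *
          (8 * S) ^ 0
        rw [hcardZ]; simp
    | succ i ih =>
      intro hi
      obtain ⟨σ, hσ, L', h1, h2, h3, h4⟩ := ih (by omega)
      obtain ⟨σ1, hσ1, L1, g1, g2, g3, g4⟩ := stage π hp hx0 hQ hU hB hB2 hr hTm hΛ hsmall1
        hsmall2 (by omega) hσ h2 h3 h4 (le_trans (Nat.mul_le_mul_right _
          (Nat.pow_le_pow_right (by omega) hi)) hd)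
      refine ⟨σ1, hσ1, L1, ?_, g2, g3, g4⟩
      rw [Nat.succ_mul]
      omega
  obtain ⟨σ, hσ, L', h1, h2, h3, h4⟩ := key r le_rfl
  have h5 := last_stage π hp hx0 hQ hU hB hr hTm hΛ hsmall1 hn hσ h2 h3 h4 hd
  rw [Nat.succ_mul]
  omega

end Pool.Agent.Y592.DS
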