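import Mathlib
import Pool.Agent.Y592.DS.Stage

set_option autoImplicit false
set_option linter.unusedSectionVars false
set_option linter.unusedVariables false

/-!
# Random constraints
-/

namespace Pool.Agent.Y592.DS

open Finset

variable {κ U : Type} [Fintype κ] [DecidableEq κ] [Fintype U] [DecidableEq U] {m : ℕ}

theorem exp_le_lin {y : ℝ} (h0 : 0 ≤ y) (h1 : y ≤ 1) : Real.exp y - 1 ≤ 2 * y := by
  have h := Real.exp_bound' h0 h1 (n := 2) (by norm_num)
  norm_num [Finset.sum_range_succ, Nat.factorial] at h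
  nlinarith

/-- a sum over all functions of a product -/
theorem sum_fun_prod {ι : Type} [Fintype ι] [DecidableEq ι] (M : ℕ) (F : ι → Fin M → ℝ) :
    ∑ g : ι → Fin M, ∏ i, F i (g i) = ∏ i, ∑ y, F i y := by
  rw [Finset.prod_univ_sum, Fintype.piFinset_univ]

theorem sum_fin_ite {M : ℕ} (hM : 0 < M) (E : ℝ) :
    ∑ y : Fin M, (if y.val = 0 then E else 1) = M * (1 + (E - 1) / M) := by
  have h1 : ∀ y : Fin M, (if y.val = 0 then E else 1) =
      1 + (if y = ⟨0, hM⟩ then E - 1 else 0) := by
    intro y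
    by_cases hy : y.val = 0
    · have : y = ⟨0, hM⟩ := Fin.ext hy
      rw [if_pos hy, if_pos this]; ring
    · have : ¬ y = ⟨0, hM⟩ := fun h => hy (by rw [h])
      rw [if_neg hy, if_neg this]; ring
  rw [sum_congr rfl fun y _ => h1 y, sum_add_distrib, sum_ite_eq' univ, if_pos (mem_univ _)]
  have hM' : (M : ℝ) ≠ 0 := by positivity
  simp
  field_simp

abbrev Ix (m : ℕ) (κ U : Type) : Type := (Fin m → κ) × (Fin m → U)

/-- the constraints given by a function -/
def badOf {M : ℕ} (g : Ix m κ U → Fin M) (C : Fin m → κ) (u : Fin m → U) : Bool :=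
  decide ((g (C, u)).val = 0)

theorem count_eq {M : ℕ} (g : Ix m κ U → Fin M) (C : Fin m → κ) (V : Finset (κ → U)) :
    ((V.filter fun z => badOf g C (at' C z) = true).card : ℝ) =
      ∑ u : Fin m → U, if (g (C, u)).val = 0 then
        ((V.filter fun z => at' C z = u).card : ℝ) else 0 := by
  have h1 : (V.filter fun z => badOf g C (at' C z) = true).card =
      ∑ u : Fin m → U, ((V.filter fun z => badOf g C (at' C z) = true).filter
        fun z => at' C z = u).card := by
    rw [← card_eq_sum_card_fiberwise]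
    intro z _
    exact mem_coe.2 (mem_univ _)
  rw [h1]
  push_cast
  refine sum_congr rfl fun u _ => ?_
  split
  · rename_i h
    congr 2
    ext z
    simp only [mem_filter, badOf, decide_eq_true_eq]
    constructor
    · rintro ⟨⟨h1, _⟩, h2⟩
      exact ⟨h1, h2⟩
    · rintro ⟨h1, h2⟩
      exact ⟨⟨h1, by rw [h2]; exact h⟩, h2⟩
  · rename_i h
    have : ((V.filter fun z => badOf g C (at' C z) = true).filter fun z => at' C z = u) = ∅ := by
      rw [filter_eq_empty_iff]
      intro z hz he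
      rw [mem_filter] at hz
      have h2 := hz.2
      simp only [badOf, decide_eq_true_eq] at h2
      rw [he] at h2
      exact h h2
    rw [this]; simp

/-- few functions violate the bound for a fixed tuple and a fixed pair of sets -/
theorem chernoff {M : ℕ} (hM : 0 < M) {Q : ℕ} (hQ : 0 < Q) {x0 : ℝ} (hx0 : 0 ≤ x0)
    {P V : Finset (κ → U)} (hVP : V ⊆ P) (C : Fin m → κ)
    (hcell : ∀ u, (P.filter (fun z => at' C z = u)).card * Q ≤ P.card) :
    (((univ : Finset (Ix m κ U → Fin M)).filter fun g =>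
      2 * (1 / M : ℝ) * V.card + x0 * P.card <
        ((V.filter fun z => badOf g C (at' C z) = true).card : ℝ)).card : ℝ) ≤
      (Fintype.card (Ix m κ U → Fin M) : ℝ) * Real.exp (-(x0 * Q)) := by
  classical
  have hM' : (0 : ℝ) < M := by exact_mod_cast hM
  have hQ' : (0 : ℝ) < Q := by exact_mod_cast hQ
  rcases P.eq_empty_or_nonempty with rfl | hP
  · have hV : V = ∅ := subset_empty.1 hVP
    subst hV
    simp
    positivity
  have hP' : (0 : ℝ) < P.card := by exact_mod_cast card_pos.2 hP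
  obtain ⟨b, hb⟩ : ∃ b : ℝ, b = P.card / Q := ⟨_, rfl⟩
  have hb0 : 0 < b := by rw [hb]; positivity
  obtain ⟨w, hw⟩ : ∃ w : (Fin m → U) → ℝ, ∀ u, w u = ((V.filter fun z => at' C z = u).card : ℝ) :=
    ⟨_, fun _ => rfl⟩
  have hw0 : ∀ u, 0 ≤ w u := fun u => by rw [hw]; exact Nat.cast_nonneg _
  have hwb : ∀ u, w u ≤ b := by
    intro u
    rw [hw, hb, le_div_iff₀ hQ']
    have h1 : (V.filter fun z => at' C z = u).card * Q ≤ P.card :=
      (Nat.mul_le_mul_right _ (card_le_card (filter_subset_filter _ hVP))).trans (hcell u)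
    exact_mod_cast h1
  have hwsum : ∑ u, w u = V.card := by
    simp only [hw]
    have h1 : V.card = ∑ u : Fin m → U, (V.filter fun z => at' C z = u).card :=
      card_eq_sum_card_fiberwise fun z _ => mem_coe.2 (mem_univ _)
    rw [h1]
    push_cast
    rfl
  obtain ⟨T, hT⟩ : ∃ T : ℝ, T = 2 * (1 / M : ℝ) * V.card + x0 * P.card := ⟨_, rfl⟩
  obtain ⟨X, hX⟩ : ∃ X : (Ix m κ U → Fin M) → ℝ,
      ∀ g, X g = ((V.filter fun z => badOf g C (at' C z) = true).card : ℝ) := ⟨_, fun _ => rfl⟩
  have hXsum : ∀ g, X g = ∑ u, if (g (C, u)).val = 0 then w u else 0 := by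
    intro g
    rw [hX, count_eq]
    exact sum_congr rfl fun u _ => by rw [hw]
  -- Markov
  have h1 : (((univ : Finset (Ix m κ U → Fin M)).filter fun g => T < X g).card : ℝ) ≤
      ∑ g : Ix m κ U → Fin M, Real.exp ((X g - T) / b) := by
    rw [card_eq_sum_ones, Nat.cast_sum, sum_filter]
    refine sum_le_sum fun g _ => ?_
    split
    · rename_i h
      rw [Nat.cast_one]
      rw [← Real.exp_zero]
      apply Real.exp_le_exp.2
      exact div_nonneg (by linarith) hb0.le
    · exact (Real.exp_pos _).le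
  -- the exponential moment
  obtain ⟨F, hF⟩ : ∃ F : Ix m κ U → Fin M → ℝ, ∀ i y, F i y =
      if y.val = 0 then (if i.1 = C then Real.exp (w i.2 / b) else 1) else 1 :=
    ⟨_, fun _ _ => rfl⟩
  have h2 : ∀ g : Ix m κ U → Fin M, Real.exp (X g / b) = ∏ i, F i (g i) := by
    intro g
    rw [hXsum, sum_div, Real.exp_sum, Fintype.prod_prod_type]
    rw [Finset.prod_eq_single C]
    · refine prod_congr rfl fun u _ => ?_
      rw [hF]
      simp only [if_true]
      split
      · rfl
      · rw [zero_div, Real.exp_zero]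
    · intro C' _ hC'
      refine prod_eq_one fun u _ => ?_
      rw [hF]
      simp only [hC', if_false, ite_self]
    · intro h
      exact absurd (mem_univ _) h
  have h3 : ∀ i : Ix m κ U, ∑ y, F i y ≤
      M * Real.exp (if i.1 = C then 2 * (w i.2 / b) / M else 0) := by
    intro i
    simp only [hF]
    rw [sum_fin_ite hM]
    refine mul_le_mul_of_nonneg_left ?_ hM'.le
    split
    · have h4 : Real.exp (w i.2 / b) - 1 ≤ 2 * (w i.2 / b) :=
        exp_le_lin (div_nonneg (hw0 _) hb0.le) ((div_le_one hb0).2 (hwb _))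
      have h5 : (Real.exp (w i.2 / b) - 1) / M ≤ 2 * (w i.2 / b) / M :=
        div_le_div_of_nonneg_right h4 hM'.le
      have h6 := Real.add_one_le_exp (2 * (w i.2 / b) / M)
      linarith
    · simp
  have h4 : ∑ g : Ix m κ U → Fin M, Real.exp (X g / b) ≤
      (Fintype.card (Ix m κ U → Fin M) : ℝ) * Real.exp (2 * (V.card / b) / M) := by
    rw [sum_congr rfl fun g _ => h2 g, sum_fun_prod]
    have h5 : ∏ i, ∑ y, F i y ≤
        ∏ i : Ix m κ U, ((M : ℝ) * Real.exp (if i.1 = C then 2 * (w i.2 / b) / M else 0)) := by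
      refine prod_le_prod (fun i _ => sum_nonneg fun y _ => ?_) (fun i _ => h3 i)
      rw [hF]
      split
      · split
        · exact (Real.exp_pos _).le
        · norm_num
      · norm_num
    refine h5.trans (le_of_eq ?_)
    rw [prod_mul_distrib, prod_const, ← Real.exp_sum]
    congr 1
    · rw [card_univ, Fintype.card_fun, Fintype.card_fin]
      push_cast
      rfl
    · congr 1
      rw [Fintype.sum_prod_type]
      rw [Finset.sum_eq_single C]
      · simp only [if_true]
        rw [← sum_div, ← mul_sum, ← sum_div, hwsum]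
      · intro C' _ hC'
        simp [hC']
      · intro h
        exact absurd (mem_univ _) h
  have h5 : ∀ g : Ix m κ U → Fin M, Real.exp ((X g - T) / b) =
      Real.exp (X g / b) * Real.exp (-(T / b)) := by
    intro g
    rw [← Real.exp_add]
    congr 1
    ring
  rw [sum_congr rfl fun g _ => h5 g, ← sum_mul] at h1
  have h6 : (∑ g : Ix m κ U → Fin M, Real.exp (X g / b)) * Real.exp (-(T / b)) ≤
      (Fintype.card (Ix m κ U → Fin M) : ℝ) * Real.exp (2 * (V.card / b) / M) *
        Real.exp (-(T / b)) := mul_le_mul_of_nonneg_right h4 (Real.exp_pos _).le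
  have h7 : (Fintype.card (Ix m κ U → Fin M) : ℝ) * Real.exp (2 * (V.card / b) / M) *
      Real.exp (-(T / b)) = (Fintype.card (Ix m κ U → Fin M) : ℝ) * Real.exp (-(x0 * Q)) := by
    rw [mul_assoc, ← Real.exp_add]
    congr 2
    rw [hT, hb]
    field_simp
    ring
  rw [h7] at h6
  simp only [hT, hX] at h1
  exact h1.trans (by
    simp only [hT, hX] at h6
    exact h6)

/-- few functions have a satisfying assignment -/
theorem firstmoment {M : ℕ} (hM : 0 < M) (z : κ → U) :
    (((univ : Finset (Ix m κ U → Fin M)).filter fun g =>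
      ∀ C : Fin m → κ, badOf g C (at' C z) = false).card : ℝ) ≤
      (Fintype.card (Ix m κ U → Fin M) : ℝ) *
        Real.exp (-((Fintype.card κ : ℝ) ^ m / M)) := by
  classical
  have hM' : (0 : ℝ) < M := by exact_mod_cast hM
  obtain ⟨F, hF⟩ : ∃ F : Ix m κ U → Fin M → ℝ, ∀ i y, F i y =
      if y.val = 0 then (if i.2 = at' i.1 z then 0 else 1) else 1 := ⟨_, fun _ _ => rfl⟩
  have hF0 : ∀ i y, 0 ≤ F i y := by
    intro i y
    rw [hF]
    split
    · split <;> norm_num
    · norm_num
  have h1 : (((univ : Finset (Ix m κ U → Fin M)).filter fun g =>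
      ∀ C : Fin m → κ, badOf g C (at' C z) = false).card : ℝ) ≤
      ∑ g : Ix m κ U → Fin M, ∏ i, F i (g i) := by
    rw [card_eq_sum_ones, Nat.cast_sum, sum_filter]
    refine sum_le_sum fun g _ => ?_
    split
    · rename_i h
      rw [Nat.cast_one]
      refine le_of_eq ?_
      symm
      refine prod_eq_one fun i _ => ?_
      rw [hF]
      by_cases hi : i.2 = at' i.1 z
      · have h2 := h i.1
        simp only [badOf, decide_eq_false_iff_not] at h2
        rw [← hi] at h2
        rw [if_neg h2]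
      · simp [hi]
    · exact prod_nonneg fun i _ => hF0 _ _
  refine h1.trans ?_
  rw [sum_fun_prod]
  have h3 : ∀ i : Ix m κ U, ∑ y, F i y ≤
      M * Real.exp (if i.2 = at' i.1 z then -(1 / M) else 0) := by
    intro i
    simp only [hF]
    rw [sum_fin_ite hM]
    refine mul_le_mul_of_nonneg_left ?_ hM'.le
    split
    · have h6 := Real.add_one_le_exp (-(1 / M : ℝ))
      have h7 : (0 - 1 : ℝ) / M = -(1 / M) := by ring
      rw [h7]
      linarith
    · simp
  refine (prod_le_prod (fun i _ => sum_nonneg fun y _ => hF0 i y) (fun i _ => h3 i)).trans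
    (le_of_eq ?_)
  rw [prod_mul_distrib, prod_const, ← Real.exp_sum]
  congr 1
  · rw [card_univ, Fintype.card_fun, Fintype.card_fin]
    push_cast
    rfl
  · congr 1
    rw [Fintype.sum_prod_type]
    simp only [sum_ite_eq', mem_univ, if_true]
    rw [sum_const, card_univ, Fintype.card_fun, Fintype.card_fin, nsmul_eq_mul]
    push_cast
    ring

/-- **Existence of pseudorandom constraints.** -/
theorem exists_bad {M : ℕ} (hM : 0 < M) {Q : ℕ} (hQ : 0 < Q) {x0 : ℝ} (hx0 : 0 ≤ x0)
    (Fam : Finset (Finset (κ → U) × Finset (κ → U))) (hFam : ∀ PV ∈ Fam, PV.2 ⊆ PV.1)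
    (h : (Fam.card : ℝ) * (Fintype.card κ : ℝ) ^ m * Real.exp (-(x0 * Q)) +
      (Fintype.card (κ → U) : ℝ) * Real.exp (-((Fintype.card κ : ℝ) ^ m / M)) < 1) :
    ∃ bad : (Fin m → κ) → (Fin m → U) → Bool,
      (∀ PV ∈ Fam, Pseudo bad Q (1 / M) x0 PV.1 PV.2) ∧ ∀ z, ∃ C, bad C (at' C z) = true := by
  classical
  have : Nonempty (Fin M) := ⟨⟨0, hM⟩⟩
  by_contra hcon
  push Not at hcon
  obtain ⟨G, hG⟩ : ∃ G : ℝ, G = (Fintype.card (Ix m κ U → Fin M) : ℝ) := ⟨_, rfl⟩
  have hG0 : 0 < G := by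
    rw [hG]
    exact_mod_cast Fintype.card_pos
  -- the bad events
  obtain ⟨E1, hE1d⟩ : ∃ E1 : (Finset (κ → U) × Finset (κ → U)) × (Fin m → κ) →
      Finset (Ix m κ U → Fin M), ∀ c, E1 c =
      if ∀ u, (c.1.1.filter (fun z => at' c.2 z = u)).card * Q ≤ c.1.1.card then
      univ.filter fun g => 2 * (1 / M : ℝ) * c.1.2.card + x0 * c.1.1.card <
        ((c.1.2.filter fun z => badOf g c.2 (at' c.2 z) = true).card : ℝ) else ∅ :=
    ⟨_, fun _ => rfl⟩
  obtain ⟨E2, hE2d⟩ : ∃ E2 : (κ → U) → Finset (Ix m κ U → Fin M), ∀ z, E2 z =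
    univ.filter fun g => ∀ C : Fin m → κ, badOf g C (at' C z) = false := ⟨_, fun _ => rfl⟩
  have hcover : (univ : Finset (Ix m κ U → Fin M)) ⊆
      (Fam ×ˢ (univ : Finset (Fin m → κ))).biUnion E1 ∪ (univ : Finset (κ → U)).biUnion E2 := by
    intro g _
    rw [mem_union]
    by_cases h1 : ∀ PV ∈ Fam, Pseudo (badOf g) Q (1 / M) x0 PV.1 PV.2
    · right
      obtain ⟨z, hz⟩ := hcon (badOf g) h1
      rw [mem_biUnion]
      refine ⟨z, mem_univ _, ?_⟩
      rw [hE2d]
      refine mem_filter.2 ⟨mem_univ _, fun C => ?_⟩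
      have := hz C
      simpa using this
    · left
      push Not at h1
      obtain ⟨PV, hPV, h2⟩ := h1
      unfold Pseudo at h2
      push Not at h2
      obtain ⟨C, hC, h3⟩ := h2
      rw [mem_biUnion]
      refine ⟨(PV, C), mem_product.2 ⟨hPV, mem_univ _⟩, ?_⟩
      rw [hE1d, if_pos hC]
      exact mem_filter.2 ⟨mem_univ _, h3⟩
  have hE1 : ∀ c ∈ Fam ×ˢ (univ : Finset (Fin m → κ)), ((E1 c).card : ℝ) ≤
      G * Real.exp (-(x0 * Q)) := by
    intro c hc
    rw [hE1d]
    by_cases hcell : ∀ u, (c.1.1.filter (fun z => at' c.2 z = u)).card * Q ≤ c.1.1.card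
    · rw [if_pos hcell, hG]
      exact chernoff hM hQ hx0 (hFam c.1 (mem_product.1 hc).1) c.2 hcell
    · rw [if_neg hcell, card_empty, Nat.cast_zero]
      exact mul_nonneg hG0.le (Real.exp_pos _).le
  have hE2 : ∀ z ∈ (univ : Finset (κ → U)), ((E2 z).card : ℝ) ≤
      G * Real.exp (-((Fintype.card κ : ℝ) ^ m / M)) := by
    intro z _
    rw [hG, hE2d]
    exact firstmoment hM z
  have h1 : G ≤ ∑ c ∈ Fam ×ˢ (univ : Finset (Fin m → κ)), ((E1 c).card : ℝ) +
      ∑ z, ((E2 z).card : ℝ) := by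
    have h2 : (univ : Finset (Ix m κ U → Fin M)).card ≤
        ∑ c ∈ Fam ×ˢ (univ : Finset (Fin m → κ)), (E1 c).card + ∑ z, (E2 z).card :=
      (card_le_card hcover).trans ((card_union_le _ _).trans
        (Nat.add_le_add card_biUnion_le card_biUnion_le))
    rw [hG, ← card_univ]
    exact_mod_cast h2
  have h2 := h1.trans (add_le_add (sum_le_sum hE1) (sum_le_sum hE2))
  rw [sum_const, sum_const, nsmul_eq_mul, nsmul_eq_mul, card_product, card_univ, card_univ] at h2
  have h3 : (Fintype.card (Fin m → κ) : ℝ) = (Fintype.card κ : ℝ) ^ m := by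
    rw [Fintype.card_fun, Fintype.card_fin]
    push_cast
    rfl
  push_cast at h2
  rw [h3] at h2
  have h4 : G ≤ G * ((Fam.card : ℝ) * (Fintype.card κ : ℝ) ^ m * Real.exp (-(x0 * Q)) +
      (Fintype.card (κ → U) : ℝ) * Real.exp (-((Fintype.card κ : ℝ) ^ m / M))) := by
    refine h2.trans (le_of_eq ?_)
    ring
  have h5 : G * ((Fam.card : ℝ) * (Fintype.card κ : ℝ) ^ m * Real.exp (-(x0 * Q)) +
      (Fintype.card (κ → U) : ℝ) * Real.exp (-((Fintype.card κ : ℝ) ^ m / M))) < G * 1 :=
    mul_lt_mul_of_pos_left h hG0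
  linarith

end Pool.Agent.Y592.DS
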