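import Mathlib
import Pool.Agent.Y592.DS.Prob

set_option autoImplicit false
set_option linter.unusedSectionVars false
set_option linter.unusedVariables false

/-!
# The family of the sets that occur on the walks
-/

namespace Pool.Agent.Y592.DS

open Finset

variable {κ U : Type} [Fintype κ] [DecidableEq κ] [Fintype U] [DecidableEq U] {m : ℕ}

/-- number of choices for one step -/
noncomputable def c0 (κ U : Type) [Fintype κ] [Fintype U] [DecidableEq κ] [DecidableEq U]
    (B : Finset ((κ → U) → Bool)) (Tm : ℕ) : ℕ :=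
  1 + B.card * (Tm + 1) * Fintype.card U ^ Fintype.card κ

theorem card_Reach (Q : ℕ) (B : Finset ((κ → U) → Bool)) (Tm : ℕ) (n : ℕ) :
    (Reach Q B Tm n).card ≤ c0 κ U B Tm ^ n := by
  induction n with
  | zero => simp [Reach]
  | succ n ih =>
    rw [Reach]
    have h1 : ((Reach Q B Tm n).biUnion fun σ => B.biUnion fun f =>
        (range (Tm + 1)).biUnion fun T =>
          parts Q (σ.1.filter fun z => f z = true) σ.2 T).card ≤
        (Reach Q B Tm n).card * (B.card * (Tm + 1) * Fintype.card U ^ Fintype.card κ) := by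
      refine card_biUnion_le_card_mul _ _ _ fun σ _ => ?_
      rw [mul_assoc]
      refine card_biUnion_le_card_mul _ _ _ fun f _ => ?_
      refine (card_biUnion_le_card_mul _ _ _ fun T _ => parts_card_le Q _ _ _).trans ?_
      rw [card_range]
    calc _ ≤ (Reach Q B Tm n).card +
          (Reach Q B Tm n).card * (B.card * (Tm + 1) * Fintype.card U ^ Fintype.card κ) :=
          (card_union_le _ _).trans (Nat.add_le_add_left h1 _)
      _ = (Reach Q B Tm n).card * c0 κ U B Tm := by unfold c0; ring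
      _ ≤ c0 κ U B Tm ^ n * c0 κ U B Tm := Nat.mul_le_mul_right _ ih
      _ = c0 κ U B Tm ^ (n + 1) := (pow_succ _ _).symm

/-- the pairs of sets for which the constraints have to look random -/
noncomputable def fam (Q : ℕ) (B : Finset ((κ → U) → Bool)) (Tm n : ℕ) :
    Finset (Finset (κ → U) × Finset (κ → U)) :=
  (Reach Q B Tm n ×ˢ Reach Q B Tm n ×ˢ B ×ˢ range (Tm + 1) ×ˢ (univ : Finset (Finset κ))).image
    fun c => (c.1.1, c.1.1 ∩ uni (parts Q (c.2.1.1.filter fun z => c.2.2.1 z = true) c.2.1.2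
      c.2.2.2.1) c.2.2.2.2)

theorem card_fam (Q : ℕ) (B : Finset ((κ → U) → Bool)) (Tm n : ℕ) :
    (fam Q B Tm n).card ≤ c0 κ U B Tm ^ (2 * n) * (B.card * (Tm + 1)) * 2 ^ Fintype.card κ := by
  unfold fam
  refine card_image_le.trans ?_
  rw [card_product, card_product, card_product, card_product, card_range, card_univ,
    Fintype.card_finset]
  have h := card_Reach Q B Tm n
  calc (Reach Q B Tm n).card * ((Reach Q B Tm n).card * (B.card * ((Tm + 1) *
        2 ^ Fintype.card κ)))
      = (Reach Q B Tm n).card * (Reach Q B Tm n).card * (B.card * (Tm + 1) *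
        2 ^ Fintype.card κ) := by ring
    _ ≤ c0 κ U B Tm ^ n * c0 κ U B Tm ^ n * (B.card * (Tm + 1) * 2 ^ Fintype.card κ) :=
        Nat.mul_le_mul_right _ (Nat.mul_le_mul h h)
    _ = c0 κ U B Tm ^ (2 * n) * (B.card * (Tm + 1)) * 2 ^ Fintype.card κ := by
        rw [two_mul, pow_add]; ring

theorem exists_rnd {M : ℕ} (hM : 0 < M) {Q : ℕ} (hQ : 0 < Q) {x0 : ℝ} (hx0 : 0 ≤ x0)
    (B : Finset ((κ → U) → Bool)) (Tm n : ℕ)
    (h : (c0 κ U B Tm : ℝ) ^ (2 * n) * ((B.card : ℝ) * (Tm + 1)) * 2 ^ Fintype.card κ *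
      (Fintype.card κ : ℝ) ^ m * Real.exp (-(x0 * Q)) +
      (Fintype.card (κ → U) : ℝ) * Real.exp (-((Fintype.card κ : ℝ) ^ m / M)) < 1) :
    ∃ bad : (Fin m → κ) → (Fin m → U) → Bool,
      Rnd bad Q (1 / M) x0 B Tm n ∧ ∀ z, ∃ C, bad C (at' C z) = true := by
  classical
  obtain ⟨bad, h1, h2⟩ := exists_bad (m := m) hM hQ hx0 (fam Q B Tm n) (by
    intro PV hPV
    unfold fam at hPV
    obtain ⟨c, _, rfl⟩ := mem_image.1 hPV
    exact inter_subset_left) (by
    refine lt_of_le_of_lt ?_ h
    have h3 : ((fam Q B Tm n).card : ℝ) ≤ (c0 κ U B Tm : ℝ) ^ (2 * n) *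
        ((B.card : ℝ) * (Tm + 1)) * 2 ^ Fintype.card κ := by
      exact_mod_cast card_fam Q B Tm n
    have h4 : ((fam Q B Tm n).card : ℝ) * (Fintype.card κ : ℝ) ^ m * Real.exp (-(x0 * Q)) ≤
        (c0 κ U B Tm : ℝ) ^ (2 * n) * ((B.card : ℝ) * (Tm + 1)) * 2 ^ Fintype.card κ *
      (Fintype.card κ : ℝ) ^ m * Real.exp (-(x0 * Q)) :=
      mul_le_mul_of_nonneg_right (mul_le_mul_of_nonneg_right h3 (by positivity))
        (Real.exp_pos _).le
    linarith)
  refine ⟨bad, ?_, h2⟩
  intro σ hσ σ0 hσ0 f hf T hT J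
  refine h1 (σ.1, σ.1 ∩ uni (parts Q (σ0.1.filter fun z => f z = true) σ0.2 T) J) ?_
  unfold fam
  rw [mem_image]
  refine ⟨(σ, σ0, f, T, J), ?_, rfl⟩
  simp only [mem_product, mem_range, mem_univ, and_true]
  exact ⟨hσ, hσ0, hf, by omega⟩

/-! ### Branch functions -/

open Classical in
/-- conjunctions of at most `s` functions from `A` -/
noncomputable def conj {Z : Type} [Fintype Z] (A : Finset (Z → Bool)) (s : ℕ) :
    Finset (Z → Bool) :=
  (Fintype.piFinset fun _ : Fin s => insertNone A).image fun g z =>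
    decide (∀ i, ∀ f, g i = some f → f z = true)

theorem card_conj {Z : Type} [Fintype Z] (A : Finset (Z → Bool)) (s : ℕ) :
    (conj A s).card ≤ (A.card + 1) ^ s := by
  classical
  unfold conj
  refine card_image_le.trans (le_of_eq ?_)
  rw [Fintype.card_piFinset]
  simp

theorem mem_conj {Z : Type} [Fintype Z] {A : Finset (Z → Bool)} {s n : ℕ}
    {line : Fin n → Z → Bool} (hl : ∀ j, line j ∈ A) {D : Finset (Fin n)} (hs : D.card ≤ s)
    {h : Z → Bool} (hh : ∀ z, h z = true ↔ ∀ j ∈ D, line j z = true) : h ∈ conj A s := by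
  classical
  unfold conj
  rw [mem_image]
  refine ⟨fun i => (D.toList[(i : ℕ)]?).map line, ?_, ?_⟩
  · rw [Fintype.mem_piFinset]
    intro i
    rw [mem_insertNone]
    intro f hf
    rw [Option.mem_def, Option.map_eq_some_iff] at hf
    obtain ⟨j, _, rfl⟩ := hf
    exact hl j
  · funext z
    rw [Bool.eq_iff_iff, hh, decide_eq_true_iff]
    constructor
    · intro h j hj
      obtain ⟨m, hm, hmf⟩ := List.getElem_of_mem (mem_toList.mpr hj)
      apply h ⟨m, ?_⟩ (line j)
      · show (D.toList[m]?).map line = some (line j)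
        rw [List.getElem?_eq_getElem hm, hmf]
        rfl
      · rw [length_toList] at hm
        omega
    · intro h i f hf
      rw [Option.map_eq_some_iff] at hf
      obtain ⟨j, hj, rfl⟩ := hf
      exact h j (mem_toList.mp (List.mem_of_getElem? hj))

open Classical in
/-- the functions which select the branches -/
noncomputable def brs {Z : Type} [Fintype Z] (A : Finset (Z → Bool)) (s : ℕ) :
    Finset (Z → Bool) :=
  (A ×ˢ conj A s).image fun c z => !c.1 z && c.2 z

theorem card_brs {Z : Type} [Fintype Z] (A : Finset (Z → Bool)) (s : ℕ) :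
    (brs A s).card ≤ (A.card + 1) ^ (s + 1) := by
  classical
  unfold brs
  refine card_image_le.trans ?_
  rw [card_product, pow_succ, mul_comm]
  exact Nat.mul_le_mul (card_conj A s) (Nat.le_succ _)

theorem br_mem {bad : (Fin m → κ) → (Fin m → U) → Bool} {S a : ℕ} (π : Ref bad S a)
    {A : Finset ((κ → U) → Bool)} (hA : ∀ j, π.line j ∈ A) {s : ℕ} (has : a ≤ s) (j q : Fin S) :
    π.br j q ∈ brs A s := by
  classical
  unfold brs
  rw [mem_image]
  refine ⟨(π.line q, fun z => decide (∀ p' ∈ π.prem j, p' < q → π.line p' z = true)), ?_, rfl⟩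
  rw [mem_product]
  refine ⟨hA q, mem_conj (line := π.line) hA (D := (π.prem j).filter fun p' => p' < q)
    ((card_le_card (filter_subset _ _)).trans ((π.card_prem j).trans has)) ?_⟩
  intro z
  rw [decide_eq_true_iff]
  simp only [mem_filter, and_imp]

theorem neg_mem {bad : (Fin m → κ) → (Fin m → U) → Bool} {S a : ℕ} (π : Ref bad S a)
    {A : Finset ((κ → U) → Bool)} (hA : ∀ j, π.line j ∈ A) {s : ℕ} (j : Fin S) :
    (fun z => !π.line j z) ∈ brs A s := by
  classical
  unfold brs
  rw [mem_image]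
  refine ⟨(π.line j, fun _ => true), ?_, ?_⟩
  · rw [mem_product]
    refine ⟨hA j, mem_conj (line := π.line) hA (D := ∅) (by simp) ?_⟩
    intro z
    simp
  · funext z
    simp

end Pool.Agent.Y592.DS
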