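import Mathlib
import Pool.Agent.Y592.DS.Fam

set_option autoImplicit false
set_option linter.unusedSectionVars false
set_option linter.unusedVariables false

/-!
# Choice of the parameters
-/

namespace Pool.Agent.Y592.DS

open Finset

theorem exp_neg_le (n : ℕ) : Real.exp (-(n : ℝ)) ≤ 1 / 2 ^ n := by
  rw [Real.exp_neg, ← one_div, Real.exp_nat_eq_pow]
  refine one_div_le_one_div_of_le (by positivity) (pow_le_pow_left₀ (by norm_num) ?_ n)
  have := Real.add_one_le_exp (1 : ℝ)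
  linarith
where
  Real.exp_nat_eq_pow {n : ℕ} : Real.exp (n : ℝ) = Real.exp 1 ^ n := by
    rw [← Real.exp_nat_mul, mul_one]

theorem num1 {m N y K : ℕ} (hN : m + 42 ≤ N) (hy1 : 1 ≤ y) (hKN : K ≤ N) :
    ((y + 1) * (y + 1) + (N + 1) + N + 1) * (2 * (2 * N)) +
      ((y + 1) * (y + 1) + (N + 1)) + K + K * m + 2 ≤ y * y * (N ^ 3) * (N ^ 11) := by
  have h3 : K + K * m ≤ N * (m + 1) := by
    calc K + K * m = K * (m + 1) := by ring
      _ ≤ N * (m + 1) := Nat.mul_le_mul_right _ hKN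
  have hyy : 1 ≤ y * y := Nat.mul_le_mul hy1 hy1
  have h4 : (y + 1) * (y + 1) ≤ 4 * (y * y) := by nlinarith
  obtain ⟨Y, hY⟩ : ∃ Y : ℕ, Y = y * y := ⟨_, rfl⟩
  rw [← hY] at hyy h4 ⊢
  have h5 : (y + 1) * (y + 1) + (N + 1) + N + 1 ≤ 4 * Y + 3 * N := by omega
  have h7 : ((y + 1) * (y + 1) + (N + 1) + N + 1) * (2 * (2 * N)) ≤
      (4 * Y + 3 * N) * (4 * N) := Nat.mul_le_mul h5 (by omega)
  obtain ⟨W, hW⟩ : ∃ W : ℕ, W = Y * N * N := ⟨_, rfl⟩
  have g1 : Y * N ≤ W := by rw [hW]; exact Nat.le_mul_of_pos_right _ (by omega)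
  have g2 : N * N ≤ W := by
    rw [hW, mul_assoc]; exact Nat.le_mul_of_pos_left _ hyy
  have g3 : Y ≤ Y * N := Nat.le_mul_of_pos_right _ (by omega)
  have g4 : N ≤ N * N := Nat.le_mul_of_pos_left _ (by omega)
  have g5 : N * (m + 1) ≤ W * (m + 1) := Nat.mul_le_mul_right _ (g4.trans g2)
  have g6 : (4 * Y + 3 * N) * (4 * N) = 16 * (Y * N) + 12 * (N * N) := by ring
  have h8 : ((y + 1) * (y + 1) + (N + 1) + N + 1) * (2 * (2 * N)) +
      ((y + 1) * (y + 1) + (N + 1)) + K + K * m + 2 ≤ 39 * W + W * (m + 1) := by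
    rw [g6] at h7
    clear g6 hW
    generalize ((y + 1) * (y + 1) + (N + 1) + N + 1) * (2 * (2 * N)) = x1 at *
    generalize (y + 1) * (y + 1) = x2 at *
    generalize K * m = x3 at *
    generalize N * (m + 1) = x4 at *
    generalize W * (m + 1) = x5 at *
    generalize Y * N = x6 at *
    generalize N * N = x7 at *
    omega
  refine h8.trans ?_
  calc 39 * W + W * (m + 1) = W * (m + 40) := by ring
    _ ≤ W * N := Nat.mul_le_mul_left _ (by omega)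
    _ ≤ W * N * (N ^ 11) := Nat.le_mul_of_pos_right _ (Nat.pow_pos (by omega))
    _ = Y * (N ^ 3) * (N ^ 11) := by rw [hW]; ring

/-- the random constraints exist -/
theorem exists_rnd_num (k m : ℕ) (hm : 0 < m) {N : ℕ} (hN : m + 42 ≤ N) {Lg β K w d : ℕ}
    (hLg : N < 2 ^ Lg) (hLg1 : 1 ≤ Lg) (hβ : β = (3 * k + m + 20) * Lg) (hK : K * (2 * β) ≤ N)
    (hw : 32 * N ≤ w ^ m) (hwd : w * d ≤ K) (hd : 1 ≤ d)
    (A : Finset ((Fin K → (Fin (2 * β) → Bool)) → Bool)) (hA : A.card ≤ 2 ^ (N ^ k)) :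
    ∃ bad : (Fin m → Fin K) → (Fin m → (Fin (2 * β) → Bool)) → Bool,
      Rnd bad (2 ^ β) (1 / ((16 * d ^ m : ℕ) : ℝ)) (1 / 2 ^ ((k + 1 + m) * Lg + 5)) (brs A (N ^ k))
        (Fintype.card (Fin K → (Fin (2 * β) → Bool)) + 1) (2 * N) ∧
      ∀ z, ∃ C, bad C (at' C z) = true := by
  classical
  have hβ1 : 1 ≤ β := by rw [hβ]; nlinarith
  have hKN : K ≤ N := by nlinarith
  obtain ⟨y, hy⟩ : ∃ y : ℕ, y = N ^ k := ⟨_, rfl⟩
  have hy1 : 1 ≤ y := by rw [hy]; exact Nat.one_le_pow _ _ (by omega)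
  have hZ : Fintype.card (Fin K → (Fin (2 * β) → Bool)) = 2 ^ (2 * β * K) := by
    simp [pow_mul]
  have hZle : Fintype.card (Fin K → (Fin (2 * β) → Bool)) ≤ 2 ^ N := by
    rw [hZ]
    exact Nat.pow_le_pow_right (by norm_num) (by rw [mul_comm]; exact hK)
  obtain ⟨Zc, hZc⟩ : ∃ Zc : ℕ, Zc = Fintype.card (Fin K → (Fin (2 * β) → Bool)) := ⟨_, rfl⟩
  rw [← hZc] at hZle ⊢
  obtain ⟨B, hB⟩ : ∃ B, B = brs A (N ^ k) := ⟨_, rfl⟩
  rw [← hB]
  have hBc : B.card ≤ 2 ^ ((y + 1) * (y + 1)) := by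
    rw [hB]
    refine (card_brs A _).trans ?_
    rw [← hy]
    have h1 : A.card + 1 ≤ 2 ^ (y + 1) := by
      rw [pow_succ, hy]
      have : 1 ≤ 2 ^ (N ^ k) := Nat.one_le_two_pow
      omega
    calc (A.card + 1) ^ (y + 1) ≤ (2 ^ (y + 1)) ^ (y + 1) := Nat.pow_le_pow_left h1 _
      _ = 2 ^ ((y + 1) * (y + 1)) := by rw [← pow_mul]
  have hTm : Zc + 1 + 1 ≤ 2 ^ (N + 1) := by
    have : 2 ≤ 2 ^ N := by
      calc 2 = 2 ^ 1 := rfl
        _ ≤ 2 ^ N := Nat.pow_le_pow_right (by norm_num) (by omega)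
    rw [pow_succ]
    omega
  have hBT : B.card * (Zc + 1 + 1) ≤ 2 ^ ((y + 1) * (y + 1) + (N + 1)) := by
    rw [pow_add]
    exact Nat.mul_le_mul hBc hTm
  have hc0 : c0 (Fin K) (Fin (2 * β) → Bool) B (Zc + 1) ≤
      2 ^ ((y + 1) * (y + 1) + (N + 1) + N + 1) := by
    unfold c0
    have h1 : Fintype.card (Fin (2 * β) → Bool) ^ Fintype.card (Fin K) ≤ 2 ^ N := by
      have h2 : Fintype.card (Fin (2 * β) → Bool) ^ Fintype.card (Fin K) = Zc := by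
        rw [hZc, Fintype.card_fun (α := Fin K)]
      rw [h2]
      exact hZle
    have h2 : B.card * (Zc + 1 + 1) * Fintype.card (Fin (2 * β) → Bool) ^ Fintype.card (Fin K) ≤
        2 ^ ((y + 1) * (y + 1) + (N + 1) + N) := by
      rw [pow_add _ _ N]
      exact Nat.mul_le_mul hBT h1
    have h3 : 1 ≤ 2 ^ ((y + 1) * (y + 1) + (N + 1) + N) := Nat.one_le_two_pow
    rw [pow_succ]
    omega
  obtain ⟨γ, hγ⟩ : ∃ γ : ℕ, γ + ((k + 1 + m) * Lg + 5) = β := by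
    refine ⟨β - ((k + 1 + m) * Lg + 5), Nat.sub_add_cancel ?_⟩
    rw [hβ]
    nlinarith
  have hγ2 : (2 * k + 14) * Lg ≤ γ := by
    have : (2 * k + 14) * Lg + ((k + 1 + m) * Lg + 5) ≤ (3 * k + m + 20) * Lg := by nlinarith
    rw [← hβ] at this
    omega
  have hγN : N ^ (2 * k + 14) ≤ 2 ^ γ := by
    calc N ^ (2 * k + 14) ≤ (2 ^ Lg) ^ (2 * k + 14) := Nat.pow_le_pow_left hLg.le _
      _ = 2 ^ ((2 * k + 14) * Lg) := by rw [← pow_mul, mul_comm]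
      _ ≤ 2 ^ γ := Nat.pow_le_pow_right (by norm_num) hγ2
  -- the exponent
  obtain ⟨E, hE⟩ : ∃ E : ℕ, E = ((y + 1) * (y + 1) + (N + 1) + N + 1) * (2 * (2 * N)) +
    ((y + 1) * (y + 1) + (N + 1)) + K + K * m := ⟨_, rfl⟩
  have hEN : E + 2 ≤ 2 ^ γ := by
    refine le_trans ?_ hγN
    have h1 : N ^ (2 * k + 14) = y * y * (N ^ 3) * (N ^ 11) := by rw [hy]; ring
    rw [h1, hE]
    exact num1 hN hy1 hKN
  have hKpos : 1 ≤ K := by
    have hw1 : 1 ≤ w := by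
      rcases Nat.eq_zero_or_pos w with rfl | h
      · rw [zero_pow (by omega)] at hw
        omega
      · exact h
    nlinarith
  have hx0Q : (1 / 2 ^ ((k + 1 + m) * Lg + 5) : ℝ) * ((2 ^ β : ℕ) : ℝ) = ((2 ^ γ : ℕ) : ℝ) := by
    obtain ⟨δ, hδ⟩ : ∃ δ : ℕ, δ = (k + 1 + m) * Lg + 5 := ⟨_, rfl⟩
    rw [← hγ, ← hδ]
    push_cast
    rw [pow_add]
    field_simp
  refine exists_rnd (m := m) (M := 16 * d ^ m) (by positivity) (by positivity) (by positivity)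
    B (Zc + 1) (2 * N) ?_
  rw [hx0Q]
  have h1 : (c0 (Fin K) (Fin (2 * β) → Bool) B (Zc + 1) : ℝ) ^ (2 * (2 * N)) *
      ((B.card : ℝ) * ((Zc + 1 : ℕ) + 1)) * 2 ^ Fintype.card (Fin K) *
      (Fintype.card (Fin K) : ℝ) ^ m ≤ 2 ^ E := by
    have h2 : c0 (Fin K) (Fin (2 * β) → Bool) B (Zc + 1) ^ (2 * (2 * N)) *
        (B.card * ((Zc + 1) + 1)) * 2 ^ K * K ^ m ≤ 2 ^ E := by
      have e1 : c0 (Fin K) (Fin (2 * β) → Bool) B (Zc + 1) ^ (2 * (2 * N)) ≤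
          2 ^ (((y + 1) * (y + 1) + (N + 1) + N + 1) * (2 * (2 * N))) := by
        rw [pow_mul 2]
        exact Nat.pow_le_pow_left hc0 _
      have e2 : K ^ m ≤ 2 ^ (K * m) := by
        rw [pow_mul]
        exact Nat.pow_le_pow_left Nat.lt_two_pow_self.le _
      rw [hE, pow_add, pow_add, pow_add]
      exact Nat.mul_le_mul (Nat.mul_le_mul (Nat.mul_le_mul e1 hBT) le_rfl) e2
    rw [Fintype.card_fin]
    exact_mod_cast h2
  have h2 : Real.exp (-((2 ^ γ : ℕ) : ℝ)) ≤ 1 / 2 ^ (E + 2) := by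
    refine (exp_neg_le _).trans ?_
    refine one_div_le_one_div_of_le (by positivity) ?_
    exact pow_le_pow_right₀ (by norm_num) hEN
  have h3 : (c0 (Fin K) (Fin (2 * β) → Bool) B (Zc + 1) : ℝ) ^ (2 * (2 * N)) *
      ((B.card : ℝ) * ((Zc + 1 : ℕ) + 1)) * 2 ^ Fintype.card (Fin K) *
      (Fintype.card (Fin K) : ℝ) ^ m * Real.exp (-((2 ^ γ : ℕ) : ℝ)) ≤ 1 / 4 := by
    refine (mul_le_mul h1 h2 (Real.exp_pos _).le (by positivity)).trans (le_of_eq ?_)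
    rw [pow_add]
    field_simp
    norm_num
  have h4 : ((Fintype.card (Fin K → (Fin (2 * β) → Bool)) : ℕ) : ℝ) *
      Real.exp (-((Fintype.card (Fin K) : ℝ) ^ m / ((16 * d ^ m : ℕ) : ℝ))) ≤ 1 / 4 := by
    rw [← hZc, Fintype.card_fin]
    have h5 : ((2 * N : ℕ) : ℝ) ≤ (K : ℝ) ^ m / ((16 * d ^ m : ℕ) : ℝ) := by
      rw [le_div_iff₀ (by positivity)]
      have h6 : 2 * N * (16 * d ^ m) ≤ K ^ m := by
        calc 2 * N * (16 * d ^ m) = 32 * N * d ^ m := by ring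
          _ ≤ w ^ m * d ^ m := Nat.mul_le_mul_right _ hw
          _ = (w * d) ^ m := (mul_pow _ _ _).symm
          _ ≤ K ^ m := Nat.pow_le_pow_left hwd _
      exact_mod_cast h6
    have h6 : Real.exp (-((K : ℝ) ^ m / ((16 * d ^ m : ℕ) : ℝ))) ≤ 1 / 2 ^ (2 * N) := by
      refine (Real.exp_le_exp.2 (neg_le_neg h5)).trans (exp_neg_le _)
    have h7 : (Zc : ℝ) ≤ 2 ^ N := by exact_mod_cast hZle
    calc (Zc : ℝ) * Real.exp (-((K : ℝ) ^ m / ((16 * d ^ m : ℕ) : ℝ)))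
        ≤ 2 ^ N * (1 / 2 ^ (2 * N)) := mul_le_mul h7 h6 (Real.exp_pos _).le (by positivity)
      _ = 1 / 2 ^ N := by
          rw [two_mul, pow_add]
          field_simp
      _ ≤ 1 / 2 ^ 2 := one_div_le_one_div_of_le (by positivity)
          (pow_le_pow_right₀ (by norm_num) (by omega))
      _ = 1 / 4 := by norm_num
  linarith

/-- the lower bound with explicit parameters -/
theorem depth_num (k m : ℕ) (hm : 0 < m) {N : ℕ} (hN : m + 42 ≤ N) {Lg β K w d : ℕ}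
    (hLg : N < 2 ^ Lg) (hLg1 : 1 ≤ Lg) (hβ : β = (3 * k + m + 20) * Lg) (hK : K * (2 * β) ≤ N)
    (hw : 32 * N ≤ w ^ m) (hwd : w * d ≤ K) (hd : 1 ≤ d)
    (A : Finset ((Fin K → (Fin (2 * β) → Bool)) → Bool)) (hA : A.card ≤ 2 ^ (N ^ k)) :
    ∃ bad : (Fin m → Fin K) → (Fin m → (Fin (2 * β) → Bool)) → Bool,
      (∀ z, ∃ C, bad C (at' C z) = true) ∧
      ∀ (a S : ℕ) (π : Ref bad S a), a ≤ N ^ k → (∀ j, π.line j ∈ A) →
        ∀ L, (∀ z, π.line L z = false) → ∀ s t r : ℕ, 8 * S ≤ 2 ^ s → 2 * t ≤ d →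
          2 * (s * r) ≤ β * d → (r + 1) * t ≤ π.h L := by
  classical
  obtain ⟨bad, h1, h2⟩ := exists_rnd_num k m hm hN hLg hLg1 hβ hK hw hwd hd A hA
  refine ⟨bad, h2, fun a S π ha hπ L hL s t r hs ht hsr => ?_⟩
  have hS : 0 < S := Nat.pos_of_ne_zero (by rintro rfl; exact L.elim0)
  have hβ1 : 1 ≤ β := by rw [hβ]; nlinarith
  have hw1 : 1 ≤ w := by
    rcases Nat.eq_zero_or_pos w with rfl | h
    · rw [zero_pow (by omega)] at hw
      omega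
    · exact h
  have hdK : d ≤ K := le_trans (Nat.le_mul_of_pos_left _ hw1) hwd
  have hKN : K ≤ N := by nlinarith
  have hβd : β * d ≤ N := by nlinarith
  have hs1 : 1 ≤ s := by
    rcases Nat.eq_zero_or_pos s with rfl | h
    · omega
    · exact h
  have hrN : r ≤ N := by nlinarith
  have htN : t ≤ N := by omega
  obtain ⟨lam, hlam⟩ : ∃ lam : ℕ, lam = (k + 1) * Lg + 5 := ⟨_, rfl⟩
  have hlamβ : lam ≤ β := by rw [hlam, hβ]; nlinarith
  -- real estimates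
  have hdR : (1 : ℝ) ≤ d := by exact_mod_cast hd
  have hp : 2 * (1 / ((16 * d ^ m : ℕ) : ℝ)) * (d : ℝ) ^ m = 1 / 8 := by
    push_cast
    have : (d : ℝ) ^ m ≠ 0 := by positivity
    field_simp
    norm_num
  have hNLg : (N : ℝ) ≤ 2 ^ Lg := by exact_mod_cast hLg.le
  have hN1 : (1 : ℝ) ≤ N := by exact_mod_cast (by omega : 1 ≤ N)
  have htR : (t : ℝ) ≤ N := by exact_mod_cast htN
  have haR : (a : ℝ) ≤ (N : ℝ) ^ k := by exact_mod_cast ha
  have hta : (t : ℝ) * a ≤ (N : ℝ) ^ (k + 1) := by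
    rw [pow_succ, mul_comm]
    exact mul_le_mul haR htR (Nat.cast_nonneg _) (by positivity)
  have hNk : (N : ℝ) ^ (k + 1) ≤ 2 ^ ((k + 1) * Lg) := by
    rw [mul_comm (k + 1) Lg, pow_mul]
    exact pow_le_pow_left₀ (by positivity) hNLg _
  have hKm : (K : ℝ) ^ m ≤ 2 ^ (m * Lg) := by
    rw [mul_comm m Lg, pow_mul]
    refine pow_le_pow_left₀ (by positivity) (le_trans ?_ hNLg) _
    exact_mod_cast hKN
  have e1 : (t : ℝ) * (a * (1 / ((2 ^ lam : ℕ) : ℝ))) ≤ 1 / 32 := by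
    have : (t : ℝ) * (a * (1 / ((2 ^ lam : ℕ) : ℝ))) = (t * a) / 2 ^ lam := by
      push_cast; ring
    rw [this, div_le_iff₀ (by positivity), hlam, pow_add]
    have := hta.trans hNk
    norm_num
    linarith
  have e2 : (t : ℝ) * (a * (1 / ((2 ^ β : ℕ) : ℝ))) ≤ 1 / 32 := by
    refine le_trans ?_ e1
    refine mul_le_mul_of_nonneg_left (mul_le_mul_of_nonneg_left ?_ (Nat.cast_nonneg _))
      (Nat.cast_nonneg _)
    refine one_div_le_one_div_of_le (by positivity) ?_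
    exact_mod_cast Nat.pow_le_pow_right (by norm_num) hlamβ
  have e3 : (Fintype.card (Fin K) : ℝ) ^ m * (1 / 2 ^ ((k + 1 + m) * Lg + 5)) ≤
      1 / 2 ^ ((k + 1) * Lg + 5) := by
    rw [Fintype.card_fin, mul_one_div, div_le_div_iff₀ (by positivity) (by positivity), one_mul]
    calc (K : ℝ) ^ m * 2 ^ ((k + 1) * Lg + 5) ≤ 2 ^ (m * Lg) * 2 ^ ((k + 1) * Lg + 5) :=
          mul_le_mul_of_nonneg_right hKm (by positivity)
      _ = 2 ^ ((k + 1 + m) * Lg + 5) := by rw [← pow_add]; congr 1; ring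
  have e4 : (t : ℝ) * (a * ((Fintype.card (Fin K) : ℝ) ^ m *
      (1 / 2 ^ ((k + 1 + m) * Lg + 5)))) ≤ 1 / 32 := by
    refine le_trans (mul_le_mul_of_nonneg_left (mul_le_mul_of_nonneg_left e3
      (Nat.cast_nonneg _)) (Nat.cast_nonneg _)) ?_
    have h3 : ((2 ^ lam : ℕ) : ℝ) = 2 ^ ((k + 1) * Lg + 5) := by rw [hlam]; push_cast; rfl
    rw [← h3]
    exact e1
  refine rank_ge π (Q := 2 ^ β) (Tm := Fintype.card (Fin K → (Fin (2 * β) → Bool)) + 1)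
    (n := 2 * N) (Λ := 2 ^ lam) (d := d) (p := 1 / ((16 * d ^ m : ℕ) : ℝ))
    (x0 := 1 / 2 ^ ((k + 1 + m) * Lg + 5)) (by positivity) (by positivity) hm ?_ ?_
    (B := brs A (N ^ k)) (fun j q _ => br_mem π hπ ha j q) (fun j => neg_mem π hπ j) h1
    le_rfl (by positivity) ?_ ?_ (by omega) hL ?_
  · calc 2 = 2 ^ 1 := rfl
      _ ≤ 2 ^ β := Nat.pow_le_pow_right (by norm_num) hβ1
  · rw [Fintype.card_fun, Fintype.card_bool, Fintype.card_fin, ← pow_mul, mul_comm]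
  · rw [hp]
    have : (t : ℝ) * (a * (1 / ((2 ^ β : ℕ) : ℝ) + 1 / ((2 ^ lam : ℕ) : ℝ) +
        (Fintype.card (Fin K) : ℝ) ^ m * (1 / 2 ^ ((k + 1 + m) * Lg + 5)))) =
        t * (a * (1 / ((2 ^ β : ℕ) : ℝ))) + t * (a * (1 / ((2 ^ lam : ℕ) : ℝ))) +
        t * (a * ((Fintype.card (Fin K) : ℝ) ^ m * (1 / 2 ^ ((k + 1 + m) * Lg + 5)))) := by ring
    rw [this]
    linarith
  · rw [hp]
    have h3 : (1 : ℝ) / 2 ^ ((k + 1) * Lg + 5) ≤ 1 / 2 ^ 5 :=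
      one_div_le_one_div_of_le (by positivity) (pow_le_pow_right₀ (by norm_num) (by omega))
    have h4 : (1 : ℝ) / 2 ^ 5 = 1 / 32 := by norm_num
    linarith
  · calc (8 * S) ^ r * (2 ^ lam) ^ t ≤ (2 ^ s) ^ r * (2 ^ lam) ^ t :=
          Nat.mul_le_mul_right _ (Nat.pow_le_pow_left hs _)
      _ = 2 ^ (s * r + lam * t) := by rw [← pow_mul, ← pow_mul, ← pow_add]
      _ ≤ 2 ^ (β * d) := by
          refine Nat.pow_le_pow_right (by norm_num) ?_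
          have : 2 * (lam * t) ≤ β * d := by
            calc 2 * (lam * t) = lam * (2 * t) := by ring
              _ ≤ β * d := Nat.mul_le_mul hlamβ ht
          omega
      _ = (2 ^ β) ^ d := by rw [pow_mul]

end Pool.Agent.Y592.DS
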